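import Pool.Agent.MP_b60a07_lc.FG.Defs

/-! The basis statement for uncountable subspaces of perfectly normal compacta. -/

namespace Pool.Agent.MP_b60a07_lc.FG

open Set Topology TopologicalSpace

universe u

/-- The Sorgenfrey topology on the real line, generated by the intervals `[a, b)`. -/
@[reducible] def sorgenfrey : TopologicalSpace ℝ := generateFrom {s | ∃ a b : ℝ, s = Ico a b}

/-- Statement (B): every uncountable subspace of a perfectly normal compact Hausdorff space has an
uncountable subspace that is metrizable or homeomorphic to a subspace of the Sorgenfrey line. -/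
def Basis : Prop :=
  ∀ (K : Type u) [TopologicalSpace K] [CompactSpace K] [T2Space K] [PerfectlyNormalSpace K]
    (X : Set K), ¬ X.Countable → ∃ Y ⊆ X, ¬ Y.Countable ∧
      (MetrizableSpace Y ∨ ∃ r : Y → ℝ, @IsEmbedding Y ℝ _ sorgenfrey r)

end Pool.Agent.MP_b60a07_lc.FG
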