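import Pool.Agent.MP_b60a07_lc.FG.Spec

/-! The copy of `A × {0,1}` inside a frame. -/

namespace Pool.Agent.MP_b60a07_lc.FG

open Set Topology TopologicalSpace Filter

universe u v

namespace EmbL

variable {A : Set unitInterval}

theorem lt_of_fst {x y : A ×ₗ Bool} (h : (ofLex x).1 < (ofLex y).1) : x < y :=
  Prod.Lex.lt_iff.2 (Or.inl h)

theorem fst_le {x y : A ×ₗ Bool} (h : x < y) : (ofLex x).1 ≤ (ofLex y).1 :=
  (Prod.Lex.lt_iff.1 h).elim le_of_lt fun k => k.1.le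

theorem ft (a : A) : (toLex (a, false) : A ×ₗ Bool) < toLex (a, true) :=
  Prod.Lex.lt_iff.2 (Or.inr ⟨rfl, Bool.false_lt_true⟩)

theorem lt_false {x : A ×ₗ Bool} {a : A} (h : x < toLex (a, false)) : (ofLex x).1 < a :=
  (Prod.Lex.lt_iff.1 h).elim id fun k => absurd k.2 (by simp)

theorem true_lt {x : A ×ₗ Bool} {a : A} (h : toLex (a, true) < x) : a < (ofLex x).1 :=
  (Prod.Lex.lt_iff.1 h).elim id fun k => absurd k.2 (by simp)

end EmbL

open EmbL in
theorem emb : Emb.{u} := by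
  intro K _ _ _ A pt i W hF hd hW
  unfold LexCopy
  let _ : TopologicalSpace (A ×ₗ Bool) := Preorder.topology _
  have _ : OrderTopology (A ×ₗ Bool) := ⟨rfl⟩
  set e : A ×ₗ Bool → K := fun x => pt (xor i (ofLex x).2) (ofLex x).1 with he
  have g0 : ∀ (a : A) (x : A ×ₗ Bool), x < toLex (a, true) → e x ∈ W false a := by
    rintro a ⟨w, j⟩ h
    rcases Prod.Lex.lt_iff.1 h with k | ⟨k, l⟩
    · exact (hW a a.2).2.2 w w.2 false _ k
    · obtain rfl : w = a := k
      obtain rfl : j = false := by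
        cases j
        · rfl
        · exact absurd l (lt_irrefl _)
      exact ((hW w w.2).1 false).2
  have g1 : ∀ (a : A) (x : A ×ₗ Bool), toLex (a, false) < x → e x ∈ W true a := by
    rintro a ⟨w, j⟩ h
    rcases Prod.Lex.lt_iff.1 h with k | ⟨k, l⟩
    · exact (hW a a.2).2.2 w w.2 true _ k
    · obtain rfl : a = w := k
      obtain rfl : j = true := by
        cases j
        · exact absurd l (lt_irrefl _)
        · rfl
      exact ((hW a a.2).1 true).2
  have h0 : ∀ (a : A) (x : A ×ₗ Bool), e x ∈ W false a → x < toLex (a, true) := fun a x h =>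
    by_contra fun k => Set.disjoint_left.1 (hW a a.2).2.1 h
      (g1 a x ((ft a).trans_le (not_lt.1 k)))
  have h1 : ∀ (a : A) (x : A ×ₗ Bool), e x ∈ W true a → toLex (a, false) < x := fun a x h =>
    by_contra fun k => Set.disjoint_left.1 (hW a a.2).2.1
      (g0 a x ((not_lt.1 k).trans_lt (ft a))) h
  have hc : Continuous e := by
    rw [continuous_iff_continuousAt]
    rintro ⟨a, j⟩ G hG
    obtain ⟨G', hG', ho, hx⟩ := mem_nhds_iff.1 hG
    have hU : IsOpen ((G' ∩ W j a) ∪ W (!j) a) :=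
      (ho.inter ((hW a a.2).1 j).1).union ((hW a a.2).1 (!j)).1
    obtain ⟨V, hV, hV'⟩ := hF.tube a.2 hU fun k => by
      by_cases hk : k = xor i j
      · exact Or.inl ⟨hk ▸ hx, hk ▸ ((hW a a.2).1 j).2⟩
      · have : k = xor i (!j) := by
          revert hk
          cases k <;> cases i <;> cases j <;> simp
        exact Or.inr (this ▸ ((hW a a.2).1 (!j)).2)
    cases j
    · obtain ⟨w, -, -, hw⟩ := hd a a.2 false univ univ_mem
      obtain ⟨l, hl, hs⟩ := exists_Ioc_subset_of_mem_nhds hV ⟨w, hw⟩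
      obtain ⟨c, hcA, hc1, hc2⟩ := hd a a.2 false (Ioi l) (Ioi_mem_nhds hl)
      have hn : Ioo (toLex ((⟨c, hcA⟩ : A), true) : A ×ₗ Bool) (toLex (a, true)) ∈
          𝓝 (toLex (a, false) : A ×ₗ Bool) := Ioo_mem_nhds (lt_of_fst hc2) (ft a)
      refine Filter.mem_map.2 (mem_of_superset hn fun y hy => hG' ?_)
      have k1 : c ≤ ((ofLex y).1 : unitInterval) := fst_le hy.1
      have k2 : ((ofLex y).1 : unitInterval) ≤ a := fst_le hy.2
      rcases hV' _ (ofLex y).1.2 (hs ⟨lt_of_lt_of_le hc1 k1, k2⟩) (xor i (ofLex y).2) with k | k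
      · exact k.1
      · exact absurd k (Set.disjoint_left.1 (hW a a.2).2.1 (g0 a y hy.2))
    · obtain ⟨w, -, -, hw⟩ := hd a a.2 true univ univ_mem
      obtain ⟨l, hl, hs⟩ := exists_Ico_subset_of_mem_nhds hV ⟨w, hw⟩
      obtain ⟨c, hcA, hc1, hc2⟩ := hd a a.2 true (Iio l) (Iio_mem_nhds hl)
      have hn : Ioo (toLex (a, false) : A ×ₗ Bool) (toLex ((⟨c, hcA⟩ : A), false)) ∈
          𝓝 (toLex (a, true) : A ×ₗ Bool) := Ioo_mem_nhds (ft a) (lt_of_fst hc2)
      refine Filter.mem_map.2 (mem_of_superset hn fun y hy => hG' ?_)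
      have k1 : (a : unitInterval) ≤ (ofLex y).1 := fst_le hy.1
      have k2 : ((ofLex y).1 : unitInterval) ≤ c := fst_le hy.2
      rcases hV' _ (ofLex y).1.2 (hs ⟨k1, lt_of_le_of_lt k2 hc1⟩) (xor i (ofLex y).2) with k | k
      · exact k.1
      · exact absurd k (Set.disjoint_right.1 (hW a a.2).2.1 (g1 a y hy.1))
  have hi : IsInducing e := by
    refine ⟨le_antisymm hc.le_induced ?_⟩
    refine @le_generateFrom _ (TopologicalSpace.induced e inferInstance) _ ?_
    rintro s ⟨⟨a, j⟩, rfl | rfl⟩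
    · cases j
      · exact ⟨W true a, ((hW a a.2).1 true).1, Set.ext fun x => ⟨h1 a x, g1 a x⟩⟩
      · refine ⟨⋃ c : {c : A // a < c}, W true c.1,
          isOpen_iUnion fun c => ((hW c.1 c.1.2).1 true).1, Set.ext fun x => ⟨fun h => ?_, fun h => ?_⟩⟩
        · obtain ⟨c, hc⟩ := mem_iUnion.1 h
          exact lt_of_fst (lt_of_lt_of_le c.2 (fst_le (h1 _ x hc)))
        · obtain ⟨c, hcA, hc1, hc2⟩ := hd a a.2 true (Iio (ofLex x).1) (Iio_mem_nhds (true_lt h))
          exact mem_iUnion.2 ⟨⟨⟨c, hcA⟩, hc2⟩, g1 _ x (lt_of_fst hc1)⟩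
    · cases j
      · refine ⟨⋃ c : {c : A // c < a}, W false c.1,
          isOpen_iUnion fun c => ((hW c.1 c.1.2).1 false).1, Set.ext fun x => ⟨fun h => ?_, fun h => ?_⟩⟩
        · obtain ⟨c, hc⟩ := mem_iUnion.1 h
          exact lt_of_fst (lt_of_le_of_lt (fst_le (h0 _ x hc)) c.2)
        · obtain ⟨c, hcA, hc1, hc2⟩ := hd a a.2 false (Ioi (ofLex x).1) (Ioi_mem_nhds (lt_false h))
          exact mem_iUnion.2 ⟨⟨⟨c, hcA⟩, hc2⟩, g0 _ x (lt_of_fst hc1)⟩
      · exact ⟨W false a, ((hW a a.2).1 false).1, Set.ext fun x => ⟨h0 a x, g0 a x⟩⟩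
  exact hi.isEmbedding

end Pool.Agent.MP_b60a07_lc.FG
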