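import Pool.Agent.MP_b60a07_lc.FG.Spec

/-! Hereditarily Lindelöf spaces, and maps to metrizable spaces on unsplit families. -/

namespace Pool.Agent.MP_b60a07_lc.FG

open Set Topology TopologicalSpace Filter

universe u v

namespace HlL

theorem one (K : Type u) [TopologicalSpace K] [CompactSpace K] [PerfectlyNormalSpace K] :
    HereditarilyLindelofSpace K := by
  refine HereditarilyLindelofSpace.of_forall_isOpen fun s hs => ?_
  obtain ⟨T, h1, h2, h3⟩ := hs.isClosed_compl.isGδ
  have e : s = ⋃ t ∈ T, tᶜ := by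
    rw [← compl_compl s, h3, compl_sInter, sUnion_image]
  rw [e]
  exact h2.isLindelof_biUnion fun t ht => (h1 t ht).isClosed_compl.isCompact.isLindelof

theorem two (K : Type u) [TopologicalSpace K] [CompactSpace K] [T2Space K]
    [HereditarilyLindelofSpace K] : PerfectlyNormalSpace K where
  closed_gdelta s hs := by
    choose! F h1 h2 h3 using fun x (hx : x ∈ sᶜ) =>
      exists_mem_nhds_isClosed_subset (hs.isOpen_compl.mem_nhds hx)
    obtain ⟨t, k1, k2, k3⟩ := (HereditarilyLindelofSpace.isLindelof sᶜ).elim_nhds_subcover F h1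
    have e : s = ⋂ x ∈ t, (F x)ᶜ := by
      rw [← compl_iUnion₂, eq_compl_comm]
      exact (iUnion₂_subset fun x hx => h3 x (k2 x hx)).antisymm k3
    rw [e]
    exact IsGδ.biInter_of_isOpen k1 fun x hx => (h2 x (k2 x hx)).isOpen_compl

theorem three (K : Type u) [TopologicalSpace K] [HereditarilyLindelofSpace K] :
    HereditarilyLindelofSpace (K × unitInterval) := by
  refine HereditarilyLindelofSpace.of_forall_isOpen fun s _ =>
    isLindelof_of_countable_subcover fun {ι} W hW hs => ?_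
  choose t h1 h2 using fun V : Set unitInterval => eq_open_union_countable
    (fun p : {p : Set K × ι // IsOpen p.1 ∧ p.1 ×ˢ V ⊆ W p.2} => p.1.1) fun p => p.2.1
  refine ⟨⋃ V ∈ countableBasis unitInterval, (fun p => p.1.2) '' t V,
    (countable_countableBasis _).biUnion fun V _ => (h1 V).image _, ?_⟩
  rintro ⟨x, y⟩ hz
  obtain ⟨i, hi⟩ := mem_iUnion.1 (hs hz)
  obtain ⟨U, V, a1, a2, a3, a4, a5⟩ := isOpen_prod_iff.1 (hW i) x y hi
  obtain ⟨V', b1, b2, b3⟩ := (isBasis_countableBasis unitInterval).exists_subset_of_mem_open a4 a2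
  have hx : x ∈ ⋃ p ∈ t V', p.1.1 := by
    rw [h2 V']
    exact mem_iUnion.2 ⟨⟨(U, i), a1, (prod_mono_right b3).trans a5⟩, a3⟩
  obtain ⟨p, c1, c2⟩ := mem_iUnion₂.1 hx
  exact mem_iUnion₂.2 ⟨p.1.2, mem_iUnion₂.2 ⟨V', b1, p, c1, rfl⟩, p.2.2 ⟨c2, b2⟩⟩

theorem four (K L : Type u) [TopologicalSpace K] [TopologicalSpace L]
    [HereditarilyLindelofSpace K] (f : K → L) (hf : Continuous f) (hs : Function.Surjective f) :
    HereditarilyLindelofSpace L := by
  refine HereditarilyLindelofSpace.of_forall_isOpen fun s _ => ?_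
  rw [← image_preimage_eq s hs]
  exact (HereditarilyLindelofSpace.isLindelof _).image hf

end HlL

theorem hls : HLs.{u} := ⟨HlL.one, HlL.two, HlL.three, HlL.four⟩

theorem nsm : NSM.{u, v} := by
  intro X _ _ ι B D h M _ _ g hg
  let := metrizableSpaceMetric M
  obtain ⟨t, -, h1, h2⟩ := (isCompact_range hg).isSeparable.exists_countable_dense_subset
  refine (h1.biUnion fun d _ => countable_iUnion fun r : {r : ℚ // 0 < r} =>
    h {x | dist (g x) d ≤ r.1} {x | 2 * (r.1 : ℝ) ≤ dist (g x) d}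
      (isClosed_le (hg.dist continuous_const) continuous_const)
      (isClosed_le continuous_const (hg.dist continuous_const)) ?_).mono ?_
  · refine disjoint_left.2 fun x (a : dist (g x) d ≤ r.1) (b : 2 * (r.1 : ℝ) ≤ dist (g x) d) => ?_
    have : (0 : ℝ) < r.1 := by exact_mod_cast r.2
    linarith
  · rintro w ⟨hw, y, hy, z, hz, ne⟩
    obtain ⟨r, r0, r1⟩ := exists_rat_btwn (div_pos (dist_pos.2 ne) three_pos)
    obtain ⟨d, hd, e⟩ := Metric.mem_closure_iff.1 (h2 (mem_range_self y)) r r0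
    refine mem_iUnion₂.2 ⟨d, hd, mem_iUnion.2 ⟨⟨r, by exact_mod_cast r0⟩, hw, ⟨y, hy, e.le⟩,
      z, hz, ?_⟩⟩
    have := dist_triangle_right (g y) (g z) d
    change 2 * (r : ℝ) ≤ dist (g z) d
    linarith

end Pool.Agent.MP_b60a07_lc.FG
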