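import Pool.Agent.MP_b60a07_lc.FG.Spec

/-! Removing the countable sets of exceptions. -/

namespace Pool.Agent.MP_b60a07_lc.FG

open Set Topology TopologicalSpace Filter

universe u v

namespace NestL

theorem pick {X : Type*} {S T : Set X} (hS : ¬ S.Countable) (hT : T.Countable) :
    ∃ w ∈ S, w ∉ T := by
  by_contra h
  exact hS (hT.mono fun w hw => by_contra fun q => h ⟨w, hw, q⟩)

theorem both (i η j : Bool) : j = xor i η ∨ j = xor i (!η) := by
  cases i <;> cases η <;> cases j <;> simp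

theorem loc {K : Type u} [TopologicalSpace K] [CompactSpace K] [T2Space K]
    {B : Set unitInterval} {pt : Bool → unitInterval → K} {i : Bool} (F : Frame B pt)
    {b : unitInterval} (hb : b ∈ B) (h : ∀ ε, ¬ Fat pt B b (xor i (!ε), ε)) :
    ∃ (W : Bool → Set K) (N : Set unitInterval), N ∈ 𝓝 b ∧
      (∀ ε, IsOpen (W ε) ∧ pt (xor i ε) b ∈ W ε) ∧ (∀ ε, Disjoint (W ε) (W !ε)) ∧
      ∀ ε, (∀ w ∈ B, w ∈ N → ∀ j, pt j w ∈ W ε ∪ W !ε) ∧
        {w ∈ B | w ∈ N ∧ side ε w b ∧ pt false w ∉ W ε}.Countable := by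
  have ne : pt (xor i false) b ≠ pt (xor i true) b := by
    cases i
    · exact F.ne b hb
    · exact (F.ne b hb).symm
  obtain ⟨W0, W1, o0, o1, m0, m1, d⟩ := t2_separation ne
  let W : Bool → Set K := fun ε => bif ε then W1 else W0
  have hW : ∀ ε, IsOpen (W ε) ∧ pt (xor i ε) b ∈ W ε := fun ε => by
    cases ε
    exacts [⟨o0, m0⟩, ⟨o1, m1⟩]
  have key : ∀ ε, ∃ N ∈ 𝓝 b, (∀ w ∈ B, w ∈ N → ∀ j, pt j w ∈ W ε ∪ W !ε) ∧
      {w ∈ B | w ∈ N ∧ side ε w b ∧ pt false w ∉ W ε}.Countable := fun ε => by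
    have q := h ε
    simp only [Fat, not_forall, not_not] at q
    obtain ⟨U, hU, V, hV, hc⟩ := q
    obtain ⟨V', hV', ht⟩ := F.tube hb (U := W ε ∪ (W (!ε) ∩ interior U))
      ((hW ε).1.union ((hW _).1.inter isOpen_interior)) fun j => by
        rcases both i ε j with rfl | rfl
        · exact Or.inl (hW ε).2
        · exact Or.inr ⟨(hW _).2, mem_interior_iff_mem_nhds.2 hU⟩
    refine ⟨V ∩ V', inter_mem hV hV', fun w hw hn j => (ht w hw hn.2 j).imp id And.left,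
      hc.mono ?_⟩
    intro w hw
    exact ⟨hw.1, hw.2.1.1, hw.2.2.1,
      interior_subset ((ht w hw.1 hw.2.1.2 false).resolve_left hw.2.2.2).2⟩
  choose N n1 n2 n3 using key
  have sub : ∀ ε, N false ∩ N true ⊆ N ε := fun ε => by
    cases ε
    exacts [inter_subset_left, inter_subset_right]
  refine ⟨W, N false ∩ N true, inter_mem (n1 _) (n1 _), hW, fun ε => ?_, fun ε =>
    ⟨fun w hw hn => n2 ε w hw (sub ε hn), (n3 ε).mono ?_⟩⟩
  · cases ε
    exacts [d, d.symm]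
  · intro w hw
    exact ⟨hw.1, sub ε hw.2.1, hw.2.2⟩

end NestL

open NestL in
theorem nest (two : Two) : Nest.{u} := by
  intro K _ _ _ B pt i hB F h
  choose! W N n1 hW hd hN using fun b (hb : b ∈ B) => loc F hb (h b hb)
  obtain ⟨M, hC⟩ : ∃ M : Set unitInterval, ¬ {b ∈ B | b ∈ M ∧ M ⊆ N b}.Countable := by
    by_contra q
    refine hB (((countable_countableBasis unitInterval).biUnion (t := fun M _ =>
      {b ∈ B | b ∈ M ∧ M ⊆ N b}) fun M _ => by_contra fun r => q ⟨M, r⟩).mono fun b hb => ?_)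
    obtain ⟨M, a1, a2, a3⟩ := (isBasis_countableBasis unitInterval).mem_nhds_iff.1 (n1 b hb)
    exact mem_iUnion₂.2 ⟨M, a1, hb, a2, a3⟩
  set C := {b ∈ B | b ∈ M ∧ M ⊆ N b} with hCd
  let T := ⋃ ε, {b ∈ C | ∃ V ∈ 𝓝 b, {w ∈ C | w ∈ V ∧ side ε w b}.Countable}
  have hT : T.Countable := countable_iUnion (two C)
  have un : ∀ a ∈ C \ T, ∀ ε, ∀ V ∈ 𝓝 a, ¬ {w ∈ C | w ∈ V ∧ side ε w a}.Countable :=
    fun a ha ε V hV q => ha.2 (mem_iUnion.2 ⟨ε, ha.1, V, hV, q⟩)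
  refine ⟨C \ T, fun a ha => ha.1.1, fun q => hC ((q.union hT).mono (subset_sdiff_union C T)),
    fun a ha ε V hV => ?_, fun ε a => W a ε, fun b hb => ⟨hW b hb.1.1, hd b hb.1.1 false,
      fun z hz ε j hs => ?_⟩⟩
  · obtain ⟨w, a1, a2⟩ := pick (un a ha ε V hV) hT
    exact ⟨w, ⟨a1.1, a2⟩, a1.2⟩
  have bB := hb.1.1
  have zB := hz.1.1
  obtain ⟨η, rfl⟩ : ∃ η, j = xor i η := (both i false j).elim (⟨_, ·⟩) (⟨_, ·⟩)
  refine ((hN b bB ε).1 z zB (hb.1.2.2 hz.1.2.1) _).resolve_right fun g => ?_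
  obtain ⟨V, hV, ht⟩ := F.tube zB (U := (W b (!ε) ∩ W z η) ∪ W z (!η))
    (((hW b bB _).1.inter (hW z zB _).1).union (hW z zB _).1) fun j => by
      rcases both i η j with rfl | rfl
      · exact Or.inl ⟨g, (hW z zB _).2⟩
      · exact Or.inr (hW z zB _).2
  obtain ⟨w, ⟨w1, ⟨w2, w3⟩, w4⟩, w5⟩ := pick (un z hz η _
    (inter_mem hV ((isOpen_side ε b).mem_nhds hs))) ((hN z zB η).2.union (hN b bB ε).2)
  have a1 : pt false w ∈ W z η := by_contra fun q =>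
    w5 (Or.inl ⟨w1.1, hz.1.2.2 w1.2.1, w4, q⟩)
  have a2 : pt false w ∈ W b ε := by_contra fun q =>
    w5 (Or.inr ⟨w1.1, hb.1.2.2 w1.2.1, w3, q⟩)
  rcases ht w w1.1 w2 false with q | q
  · exact disjoint_left.1 (hd b bB ε) a2 q.1
  · exact disjoint_left.1 (hd z zB η) a1 q

end Pool.Agent.MP_b60a07_lc.FG
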