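import Pool.Agent.MP_b60a07_lc.FG.Spec

/-! From at most two condensation types to a uniform pattern. -/

namespace Pool.Agent.MP_b60a07_lc.FG

open Set Topology TopologicalSpace Filter

universe u v

namespace PatL

theorem fin4 : ∀ T : Finset (Bool × Bool), T.card ≤ 2 → (∀ ε, ∃ j, (j, ε) ∈ T) →
    (∀ j, ∃ ε, (j, ε) ∈ T) → ∃ i : Bool, ∀ ε, (xor i (!ε), ε) ∉ T := by decide

theorem set4 (T : Set (Bool × Bool)) (h : T.encard ≤ 2) (h1 : ∀ ε, ∃ j, (j, ε) ∈ T)
    (h2 : ∀ j, ∃ ε, (j, ε) ∈ T) : ∃ i : Bool, ∀ ε, (xor i (!ε), ε) ∉ T := by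
  lift T to Finset (Bool × Bool) using T.toFinite
  rw [encard_coe_eq_coe_finsetCard] at h
  exact fin4 T (by exact_mod_cast h) h1 h2

variable {K : Type u} [TopologicalSpace K] [CompactSpace K] {B : Set unitInterval}
  {pt : Bool → unitInterval → K}

theorem sideA (two : Two) (h : Frame B pt) (ε : Bool) :
    {b ∈ B | ¬ ∃ j, Fat pt B b (j, ε)}.Countable := by
  refine (two B ε).mono ?_
  rintro b ⟨hb, hn⟩
  refine ⟨hb, ?_⟩
  simp only [Fat, not_exists, not_forall, not_not] at hn
  choose U hU V hV hc using hn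
  obtain ⟨W, hW, k⟩ := h.tube hb (U := interior (U false) ∪ interior (U true))
    (isOpen_interior.union isOpen_interior) fun j => by
      cases j
      · exact Or.inl (mem_interior_iff_mem_nhds.2 (hU false))
      · exact Or.inr (mem_interior_iff_mem_nhds.2 (hU true))
  refine ⟨W ∩ (V false ∩ V true), inter_mem hW (inter_mem (hV false) (hV true)),
    ((hc false).union (hc true)).mono ?_⟩
  rintro w ⟨a, ⟨c, d, e⟩, f⟩
  rcases k w a c false with g | g
  · exact Or.inl ⟨a, d, f, interior_subset g⟩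
  · exact Or.inr ⟨a, e, f, interior_subset g⟩

theorem sideB [T2Space K] [HereditarilyLindelofSpace (K × unitInterval)] (cond : Cond.{u, 0})
    (h : Frame B pt) (j : Bool) : {b ∈ B | ¬ ∃ ε, Fat pt B b (j, ε)}.Countable := by
  refine (cond (K × unitInterval) unitInterval (fun w => (pt j w, w)) B).mono ?_
  rintro b ⟨hb, hn⟩
  refine ⟨hb, ?_⟩
  simp only [Fat, not_exists, not_forall, not_not] at hn
  choose U hU V hV hc using hn
  obtain ⟨N, hN, c1, c2⟩ := exists_mem_nhds_isClosed_subset
    (interior_mem_nhds.2 (inter_mem (hU false) (hU true)))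
  refine ⟨N ×ˢ (V false ∩ V true), prod_mem_nhds hN (inter_mem (hV false) (hV true)),
    (((h.ns N _ c1 isOpen_interior.isClosed_compl (disjoint_compl_right_iff_subset.2 c2)).union
      (countable_singleton b)).union ((hc false).union (hc true))).mono ?_⟩
  rintro w ⟨a, c, d, e⟩
  by_cases g : pt false w ∈ interior (U false ∩ U true)
  · rcases lt_trichotomy w b with k | k | k
    · exact Or.inr (Or.inl ⟨a, d, k, (interior_subset g).1⟩)
    · exact Or.inl (Or.inr k)
    · exact Or.inr (Or.inr ⟨a, e, k, (interior_subset g).2⟩)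
  · refine Or.inl (Or.inl ⟨a, ⟨pt j w, ?_, c⟩, pt false w, Or.inl rfl, g⟩)
    cases j
    · exact Or.inl rfl
    · exact Or.inr rfl

end PatL

open PatL in
theorem pat (cond : Cond.{u, 0}) (two : Two) (hls : HLs.{u}) : Pat.{u} := by
  intro K _ _ _ _ B pt hB h h2
  have := hls.2.2.1 K
  by_contra hn
  have hc : ∀ i : Bool, {b ∈ B | ∀ ε, ¬ Fat pt B b (xor i (!ε), ε)}.Countable := fun i => by
    by_contra k
    exact hn ⟨_, fun _ a => a.1, k, i, fun b hb ε f => hb.2 ε (f.mono fun _ a => a.1)⟩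
  refine hB (((countable_iUnion hc).union ((countable_iUnion (sideA two h)).union
    (countable_iUnion (sideB cond h)))).mono fun b hb => ?_)
  by_contra k
  simp only [mem_union, mem_iUnion, mem_ofPred_eq, hb, true_and, not_or, not_exists, not_forall,
    not_not] at k
  obtain ⟨i, hi⟩ := set4 _ (h2 b hb) k.2.1 k.2.2
  obtain ⟨ε, f⟩ := k.1 i
  exact hi ε f

end Pool.Agent.MP_b60a07_lc.FG
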