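import Pool.Agent.MP_b60a07_lc.FG.Spec

/-! From a two to one map to a frame. -/

namespace Pool.Agent.MP_b60a07_lc.FG

open Set Topology TopologicalSpace Filter

universe u v

namespace SetupL

theorem two {K M : Type u} {f : K → M} (h : ∀ y, (f ⁻¹' {y}).encard ≤ 2) {a b c : K}
    (hab : a ≠ b) (h1 : f a = f b) (h2 : f c = f a) : c = a ∨ c = b := by
  by_contra hn
  rw [not_or] at hn
  have h3 : ({c, a, b} : Set K).encard = 3 := encard_eq_three.2 ⟨c, a, b, hn.1, hn.2, hab, rfl⟩
  have h4 : ({c, a, b} : Set K) ⊆ f ⁻¹' {f a} := by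
    intro z hz
    simp only [mem_insert_iff, mem_singleton_iff] at hz
    rcases hz with rfl | rfl | rfl
    · exact h2
    · rfl
    · exact h1.symm
  have h5 := (encard_le_encard h4).trans (h (f a))
  rw [h3] at h5
  exact absurd h5 (by decide)

theorem key (cond : Cond.{u, u}) {K : Type u} [TopologicalSpace K] [CompactSpace K] [T2Space K]
    {M : Type u} [TopologicalSpace M] [CompactSpace M] [MetrizableSpace M] {f : K → M}
    (hf : Continuous f) (h : ∀ y, (f ⁻¹' {y}).encard ≤ 2) {Y : Set (K × K)}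
    (hY : ∀ s ∈ Y, f s.1 = f s.2) (O : K × K → Set (K × K)) (hO : ∀ s ∈ Y, O s ∈ 𝓝 s)
    (hc : ∀ s ∈ Y, (Y ∩ O s).Countable) {F G : Set K} (hF : IsClosed F) (hG : IsClosed G)
    (hd : Disjoint F G) : {s ∈ Y | s.1 ∈ F ∧ s.2 ∈ G}.Countable := by
  let L : Set (K × K) := {s | (s.1 ∈ F ∧ s.2 ∈ G) ∧ f s.1 = f s.2}
  have hL : IsClosed L :=
    ((hF.preimage continuous_fst).inter (hG.preimage continuous_snd)).inter
      (isClosed_eq (hf.comp continuous_fst) (hf.comp continuous_snd))
  have : CompactSpace L := isCompact_iff_compactSpace.1 hL.isCompact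
  have hne : ∀ x ∈ F, ∀ y ∈ G, x ≠ y := fun x hx y hy e =>
    disjoint_left.1 hd hx (e ▸ hy)
  have hi : Function.Injective fun s : L => f s.1.1 := by
    intro s t e
    have e' : f s.1.1 = f t.1.1 := e
    have h0 := hne _ t.2.1.1 _ t.2.1.2
    have h1 := two h h0 t.2.2 e'
    have h2 := two h h0 t.2.2 (s.2.2.symm.trans e')
    refine Subtype.ext (Prod.ext (h1.resolve_right ?_) (h2.resolve_left ?_))
    · exact hne _ s.2.1.1 _ t.2.1.2
    · exact (hne _ t.2.1.1 _ s.2.1.2).symm
  have he : IsClosedEmbedding fun s : L => f s.1.1 :=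
    (hf.comp (continuous_fst.comp continuous_subtype_val)).isClosedEmbedding hi
  have : SecondCountableTopology M := by
    let := metrizableSpaceMetric M
    infer_instance
  have : SecondCountableTopology L := he.isEmbedding.secondCountableTopology
  have h1 := cond L L id {s | s.1 ∈ Y}
  have h2 : {s : L | s.1 ∈ Y}.Countable := by
    refine Set.Countable.mono ?_ h1
    intro s hs
    refine ⟨hs, Subtype.val ⁻¹' O s.1,
      continuous_subtype_val.continuousAt.preimage_mem_nhds (hO _ hs), ?_⟩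
    have h3 : ((Subtype.val : L → K × K) ⁻¹' (Y ∩ O s.1)).Countable :=
      (hc _ hs).preimage Subtype.val_injective
    refine Set.Countable.mono ?_ h3
    intro w hw
    exact ⟨hw.1, hw.2⟩
  refine (h2.image Subtype.val).mono fun s hs => ?_
  exact ⟨⟨s, hs.2, hY s hs.1⟩, hs.1, rfl⟩

theorem iota : ∃ ι : (ℕ → Bool) → unitInterval, Continuous ι ∧ Function.Injective ι := by
  refine ⟨fun t => ⟨(cantorSetHomeomorphNatToBool.symm t).1,
    cantorSet_subset_unitInterval (cantorSetHomeomorphNatToBool.symm t).2⟩,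
    (continuous_subtype_val.comp cantorSetHomeomorphNatToBool.symm.continuous).subtype_mk _, ?_⟩
  intro s t e
  have e' := congrArg (fun z : unitInterval => (z : ℝ)) e
  exact cantorSetHomeomorphNatToBool.symm.injective (Subtype.ext e')

end SetupL

open SetupL in
theorem setup (rs : RS.{u}) (cond : Cond.{u, u}) : Setup.{u} := by
  intro K _ _ _ M _ _ _ f hf h P hP hN
  classical
  have hg : ∀ s : K × K, ∃ g : C(K, ℝ), s.1 ≠ s.2 → g s.1 ≠ g s.2 := by
    intro s
    by_cases e : s.1 = s.2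
    · exact ⟨0, fun h => absurd e h⟩
    · obtain ⟨g, g0, g1, -⟩ := exists_continuous_zero_one_of_isClosed
        (isClosed_singleton (x := s.1)) (isClosed_singleton (x := s.2)) (disjoint_singleton.2 e)
      refine ⟨g, fun _ => ?_⟩
      rw [g0 (mem_singleton _), g1 (mem_singleton _)]
      simp
  choose g hg using hg
  let S : Set (K × K) := {s ∈ P | f s.1 = f s.2}
  let O : K × K → Set (K × K) := fun s => {t | g s t.1 ≠ g s t.2}
  have hO : ∀ s, IsOpen (O s) := fun s =>
    isOpen_ne_fun ((g s).continuous.comp continuous_fst) ((g s).continuous.comp continuous_snd)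
  have hS : ∀ s ∈ S, s ∈ O s := fun s hs => hg s (hP s hs.1)
  obtain ⟨Y, hYS, hY, hYc⟩ := rs (K × K) S O hS (by
    intro T _ hT
    have : Countable T := hT.to_subtype
    obtain ⟨s, hs, e⟩ := hN (M × (T → ℝ)) (fun x => (f x, fun t => g t.1 x))
      (hf.prodMk (continuous_pi fun t => (g t.1).continuous))
    refine ⟨s, ⟨hs, congrArg Prod.fst e⟩, fun t ht hn => hn ?_⟩
    exact congrFun (congrArg Prod.snd e) ⟨t, ht⟩)
  have hYf : ∀ s ∈ Y, f s.1 = f s.2 := fun s hs => (hYS hs).2
  have hYn : ∀ s ∈ Y, s.1 ≠ s.2 := fun s hs => hP s (hYS hs).1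
  have hk : ∀ F G : Set K, IsClosed F → IsClosed G → Disjoint F G →
      {s ∈ Y | s.1 ∈ F ∧ s.2 ∈ G}.Countable := fun F G hF hG hd =>
    key cond hf h hYf O (fun s hs => (hO s).mem_nhds (hS s (hYS hs))) hYc hF hG hd
  obtain ⟨s0, -, -⟩ := hN M f hf
  have : Nonempty M := ⟨f s0.1⟩
  obtain ⟨φ, φc, φs⟩ : ∃ φ : (ℕ → Bool) → M, Continuous φ ∧ Function.Surjective φ := by
    let := metrizableSpaceMetric M
    exact exists_nat_bool_continuous_surjective_of_compact M
  obtain ⟨ι, ιc, ιi⟩ := iota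
  choose ψ hψ using φs
  let c : K × K → unitInterval := fun s => ι (ψ (f s.1))
  have hc : ∀ s t, c s = c t → f s.1 = f t.1 := by
    intro s t e
    rw [← hψ (f s.1), ← hψ (f t.1), ιi e]
  have hσ : ∀ b : unitInterval, ∃ s : K × K, b ∈ c '' Y → s ∈ Y ∧ c s = b := by
    intro b
    by_cases hb : b ∈ c '' Y
    · obtain ⟨s, hs, e⟩ := hb
      exact ⟨s, fun _ => ⟨hs, e⟩⟩
    · exact ⟨s0, fun h => absurd h hb⟩
  choose σ hσ using hσ
  refine ⟨c '' Y, fun j b => _root_.cond j (σ b).2 (σ b).1, fun hB => hY ?_, ⟨?_, ?_, ?_⟩, ?_⟩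
  · refine ((hB.image σ).union (hB.image fun b => (σ b).swap)).mono fun s hs => ?_
    have hb : c s ∈ c '' Y := mem_image_of_mem c hs
    obtain ⟨h1, h2⟩ := hσ _ hb
    have h3 := hc _ _ h2
    have h4 := two h (hYn _ h1) (hYf _ h1) h3.symm
    have h5 := two h (hYn _ h1) (hYf _ h1) ((hYf s hs).symm.trans h3.symm)
    have h6 := hYn s hs
    rcases h4 with h4 | h4 <;> rcases h5 with h5 | h5
    · exact absurd (h4.trans h5.symm) h6
    · exact Or.inl ⟨_, hb, (Prod.ext h4 h5).symm⟩
    · exact Or.inr ⟨_, hb, (Prod.ext h4 h5).symm⟩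
    · exact absurd (h4.trans h5.symm) h6
  · exact fun b hb => hYn _ (hσ b hb).1
  · refine ⟨Prod.map id ι '' {z : K × (ℕ → Bool) | f z.1 = φ z.2},
      ((isClosed_eq (hf.comp continuous_fst) (φc.comp continuous_snd)).isCompact.image
        (continuous_id.prodMap ιc)).isClosed, fun b hb y => ?_⟩
    obtain ⟨h1, h2⟩ := hσ b hb
    constructor
    · rintro ⟨⟨y', t⟩, h3, h4⟩
      obtain rfl : y' = y := congrArg Prod.fst h4
      have h5 : ι t = b := congrArg Prod.snd h4
      have h6 : t = ψ (f (σ b).1) := ιi (h5.trans h2.symm)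
      have h7 : f y' = φ t := h3
      rw [h6, hψ] at h7
      exact two h (hYn _ h1) (hYf _ h1) h7
    · intro h3
      refine ⟨(y, ψ (f (σ b).1)), ?_, Prod.ext rfl h2⟩
      show f y = φ (ψ (f (σ b).1))
      rw [hψ]
      rcases h3 with h3 | h3
      · exact congrArg f h3
      · exact (congrArg f h3).trans (hYf _ h1).symm
  · intro F G hF hG hd
    refine (((hk F G hF hG hd).union (hk G F hG hF hd.symm)).image c).mono ?_
    rintro w ⟨hw, ⟨x, hx, hxF⟩, ⟨y, hy, hyG⟩⟩
    obtain ⟨h1, h2⟩ := hσ w hw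
    refine ⟨σ w, ?_, h2⟩
    rcases hx with rfl | rfl <;> rcases hy with rfl | rfl
    · exact absurd hyG (disjoint_left.1 hd hxF)
    · exact Or.inl ⟨h1, hxF, hyG⟩
    · exact Or.inr ⟨h1, hyG, hxF⟩
    · exact absurd hyG (disjoint_left.1 hd hxF)
  · exact fun b hb => (hYS (hσ b hb).1).1

end Pool.Agent.MP_b60a07_lc.FG
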