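import Pool.Agent.MP_b60a07_lc.FG.Spec

/-! The use of (H) for one family of pairs. -/

namespace Pool.Agent.MP_b60a07_lc.FG

open Set Topology TopologicalSpace Filter

universe u v

namespace StepL

theorem nbhd (A : Set unitInterval) (a : A) (O : Set (A ×ₗ Bool))
    (hO : @IsOpen _ (Preorder.topology (A ×ₗ Bool)) O) (h : ∀ j, toLex (a, j) ∈ O) :
    ∃ V ∈ 𝓝 (a : unitInterval), ∀ w : A, (w : unitInterval) ∈ V → ∀ j, toLex (w, j) ∈ O := by
  let _ : TopologicalSpace (A ×ₗ Bool) := Preorder.topology (A ×ₗ Bool)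
  have _ : OrderTopology (A ×ₗ Bool) := ⟨rfl⟩
  have h1 : ∃ V ∈ 𝓝 (a : unitInterval), ∀ w : A, (w : unitInterval) ∈ V → w < a →
      ∀ j, toLex (w, j) ∈ O := by
    by_cases k : ∃ l, l < toLex (a, false)
    · obtain ⟨l, hl, hs⟩ := exists_Ioc_subset_of_mem_nhds (hO.mem_nhds (h false)) k
      have hc : (ofLex l).1 < a := by
        rcases Prod.Lex.lt_iff.1 hl with k' | k'
        · exact k'
        · exact absurd k'.2 (by simp)
      refine ⟨Ioi ((ofLex l).1 : unitInterval), Ioi_mem_nhds hc, fun w hw hwa j => hs ⟨?_, ?_⟩⟩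
      · exact Prod.Lex.lt_iff.2 (Or.inl hw)
      · exact (Prod.Lex.lt_iff.2 (Or.inl hwa)).le
    · exact ⟨univ, univ_mem, fun w _ hwa j =>
        absurd ⟨toLex (w, j), Prod.Lex.lt_iff.2 (Or.inl hwa)⟩ k⟩
  have h2 : ∃ V ∈ 𝓝 (a : unitInterval), ∀ w : A, (w : unitInterval) ∈ V → a < w →
      ∀ j, toLex (w, j) ∈ O := by
    by_cases k : ∃ l, toLex (a, true) < l
    · obtain ⟨l, hl, hs⟩ := exists_Ico_subset_of_mem_nhds (hO.mem_nhds (h true)) k
      have hc : a < (ofLex l).1 := by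
        rcases Prod.Lex.lt_iff.1 hl with k' | k'
        · exact k'
        · exact absurd k'.2 (by simp)
      refine ⟨Iio ((ofLex l).1 : unitInterval), Iio_mem_nhds hc, fun w hw hwa j => hs ⟨?_, ?_⟩⟩
      · exact (Prod.Lex.lt_iff.2 (Or.inl hwa)).le
      · exact Prod.Lex.lt_iff.2 (Or.inl hw)
    · exact ⟨univ, univ_mem, fun w _ hwa j =>
        absurd ⟨toLex (w, j), Prod.Lex.lt_iff.2 (Or.inl hwa)⟩ k⟩
  obtain ⟨V1, m1, k1⟩ := h1
  obtain ⟨V2, m2, k2⟩ := h2
  refine ⟨V1 ∩ V2, inter_mem m1 m2, fun w hw j => ?_⟩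
  rcases lt_trichotomy w a with k | rfl | k
  · exact k1 w hw.1 k j
  · exact h j
  · exact k2 w hw.2 k j

end StepL

theorem step (nsm : NSM.{u, u}) : Step.{u} := by
  intro hH K _ _ _ _ ι B p q hB hne hNS
  obtain ⟨A, hA, e, he, hP⟩ := hH K {s | ∃ b ∈ B, s = (p b, q b)}
    (by rintro _ ⟨b, hb, rfl⟩; exact hne b hb) (by
      intro M _ _ g hg
      by_contra hn
      refine hB ((nsm K ι B _ hNS M g hg).mono ?_)
      intro b hb
      exact ⟨hb, p b, Or.inl rfl, q b, Or.inr rfl, fun k => hn ⟨(p b, q b), ⟨b, hb, rfl⟩, k⟩⟩)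
  have hβ : ∀ a : A, ∃ b ∈ B, ∃ j, p b = e (toLex (a, j)) ∧ q b = e (toLex (a, !j)) := by
    intro a
    rcases hP a with ⟨b, hb, k⟩ | ⟨b, hb, k⟩
    · exact ⟨b, hb, false, (Prod.mk.inj k).1.symm, (Prod.mk.inj k).2.symm⟩
    · exact ⟨b, hb, true, (Prod.mk.inj k).1.symm, (Prod.mk.inj k).2.symm⟩
  choose β hb j hp hq using hβ
  let _ : TopologicalSpace (A ×ₗ Bool) := Preorder.topology (A ×ₗ Bool)
  have he' : IsEmbedding e := he
  have hinj : Function.Injective β := fun a a' k => by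
    have : e (toLex (a, j a)) = e (toLex (a', j a')) := by rw [← hp, ← hp, k]
    exact (Prod.mk.inj (toLex.injective (he'.injective this))).1
  refine ⟨range β, by rintro _ ⟨a, rfl⟩; exact hb a, fun hc => hA ?_,
    Function.extend β Subtype.val fun _ => 0, ?_⟩
  · have := hc.preimage_of_injOn hinj.injOn
    rw [preimage_range] at this
    exact countable_coe_iff.1 (countable_univ_iff.1 this)
  · rintro _ ⟨a, rfl⟩ U hU h1 h2
    obtain ⟨V, hV, k⟩ := StepL.nbhd A a (e ⁻¹' U) (hU.preimage he'.continuous) fun i => by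
      rw [hp] at h1
      rw [hq] at h2
      rcases Bool.eq_or_eq_not i (j a) with rfl | rfl
      · exact h1
      · exact h2
    refine ⟨V, by rwa [hinj.extend_apply], ?_⟩
    rintro _ ⟨w, rfl⟩ hw
    rw [hinj.extend_apply] at hw
    rw [hp]
    exact k w hw _

end Pool.Agent.MP_b60a07_lc.FG
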