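import Pool.Agent.MP_b60a07_lc.FG.Spec

/-! The use of (F): it is applied to the set of condensation points in a fibre product with a
split interval. -/

namespace Pool.Agent.MP_b60a07_lc.FG

open Set Topology TopologicalSpace Filter

universe u

namespace ThinL

open Classical in
/-- The cut of `B` determined by `w`. -/
noncomputable def sg (B : Set unitInterval) (w : unitInterval) : unitInterval → Bool :=
  fun c => decide (c ∈ B ∧ c < w)

/-- The ambient compact space. -/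
abbrev E (K : Type u) : Type u := K × unitInterval × (unitInterval → Bool)

variable {K : Type u} [TopologicalSpace K] {B : Set unitInterval} {pt : Bool → unitInterval → K}

/-- The points over `w`. -/
def Ov (B : Set unitInterval) (pt : Bool → unitInterval → K) (w : unitInterval) : Set (E K) :=
  {z | (z.1 = pt false w ∨ z.1 = pt true w) ∧ z.2.1 = w ∧ ∀ c, c ≠ w → z.2.2 c = sg B w c}

/-- A fixed point over `w`. -/
noncomputable def xx (B : Set unitInterval) (pt : Bool → unitInterval → K) (w : unitInterval) :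
    E K := (pt false w, w, sg B w)

/-- The point of type `t` over `b`. -/
noncomputable def zz (B : Set unitInterval) (pt : Bool → unitInterval → K) (b : unitInterval)
    (t : Bool × Bool) : E K := (pt t.1 b, b, Function.update (sg B b) b t.2)

/-- The condensation points. -/
def Z (B : Set unitInterval) (pt : Bool → unitInterval → K) : Set (E K) :=
  {z | ∀ U ∈ 𝓝 z, ¬ {w ∈ B | xx B pt w ∈ U}.Countable}

omit [TopologicalSpace K] in
theorem xx_ov (w : unitInterval) : xx B pt w ∈ Ov B pt w := ⟨Or.inl rfl, rfl, fun _ _ => rfl⟩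

omit [TopologicalSpace K] in
theorem zz_ov (w : unitInterval) (t : Bool × Bool) : zz B pt w t ∈ Ov B pt w := by
  refine ⟨?_, rfl, fun c hc => Function.update_of_ne hc _ _⟩
  rcases t with ⟨_ | _, _⟩
  · exact Or.inl rfl
  · exact Or.inr rfl

theorem nse [CompactSpace K] [T2Space K] (h : Frame B pt) : NS B (Ov B pt) := by
  intro F G hF hG hd
  have key := (hF.isCompact.prod hG.isCompact).induction_on
    (p := fun S => {w ∈ B | ∃ y ∈ Ov B pt w, ∃ z ∈ Ov B pt w, (y, z) ∈ S}.Countable)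
    (by simp) ?_ ?_ ?_
  · refine key.mono ?_
    rintro w ⟨hw, ⟨y, h1, h2⟩, z, h3, h4⟩
    exact ⟨hw, y, h1, z, h3, h2, h4⟩
  · intro s t hst ht
    refine ht.mono ?_
    rintro w ⟨hw, y, h1, z, h2, h3⟩
    exact ⟨hw, y, h1, z, h2, hst h3⟩
  · intro s t hs ht
    refine (hs.union ht).mono ?_
    rintro w ⟨hw, y, h1, z, h2, h3 | h3⟩
    · exact Or.inl ⟨hw, y, h1, z, h2, h3⟩
    · exact Or.inr ⟨hw, y, h1, z, h2, h3⟩
  · rintro ⟨a, b⟩ ⟨ha, hb⟩
    have hab : a ≠ b := fun e => Set.disjoint_left.1 hd ha (e ▸ hb)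
    by_cases h1 : a.1 = b.1
    · by_cases h2 : a.2.1 = b.2.1
      · obtain ⟨c, hc⟩ : ∃ c, a.2.2 c ≠ b.2.2 c :=
          Function.ne_iff.1 fun e => hab (Prod.ext h1 (Prod.ext h2 e))
        refine ⟨{s | s.1.2.2 c ≠ s.2.2.2 c}, mem_nhdsWithin_of_mem_nhds
          ((isOpen_ne_fun (by fun_prop) (by fun_prop)).mem_nhds hc),
          (countable_singleton c).mono ?_⟩
        rintro w ⟨-, y, h3, z, h4, h5⟩
        by_contra hn
        exact h5 ((h3.2.2 c (Ne.symm hn)).trans (h4.2.2 c (Ne.symm hn)).symm)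
      · refine ⟨{s | s.1.2.1 ≠ s.2.2.1}, mem_nhdsWithin_of_mem_nhds
          ((isOpen_ne_fun (by fun_prop) (by fun_prop)).mem_nhds h2), countable_empty.mono ?_⟩
        rintro w ⟨-, y, h3, z, h4, h5⟩
        exact h5 (h3.2.1.trans h4.2.1.symm)
    · obtain ⟨U, V, hU, hV, haU, hbV, hUV⟩ := t2_separation h1
      obtain ⟨F', f1, f2, f3⟩ := exists_mem_nhds_isClosed_subset (hU.mem_nhds haU)
      obtain ⟨G', g1, g2, g3⟩ := exists_mem_nhds_isClosed_subset (hV.mem_nhds hbV)
      refine ⟨{s | s.1.1 ∈ F' ∧ s.2.1 ∈ G'}, mem_nhdsWithin_of_mem_nhds (inter_mem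
        ((by fun_prop : Continuous fun s : E K × E K => s.1.1).continuousAt.preimage_mem_nhds f1)
        ((by fun_prop : Continuous fun s : E K × E K => s.2.1).continuousAt.preimage_mem_nhds g1)),
        (h.ns F' G' f2 g2 (hUV.mono f3 g3)).mono ?_⟩
      rintro w ⟨hw, y, h3, z, h4, h5, h6⟩
      exact ⟨hw, ⟨y.1, h3.1, h5⟩, z.1, h4.1, h6⟩

theorem z_closed : IsClosed (Z B pt) := by
  rw [← isOpen_compl_iff, isOpen_iff_mem_nhds]
  intro z hz
  simp only [Z, mem_compl_iff, mem_ofPred_eq, not_forall, not_not] at hz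
  obtain ⟨U, hU, hc⟩ := hz
  filter_upwards [eventually_mem_nhds_iff.2 hU] with y hy hz
  exact hz U hy hc

theorem z_sub {T : Set (E K)} (hT : IsClosed T) (h : ∀ w ∈ B, xx B pt w ∈ T) : Z B pt ⊆ T := by
  intro z hz
  by_contra hn
  refine hz _ (hT.isOpen_compl.mem_nhds hn) (countable_empty.mono ?_)
  intro w hw
  exact hw.2 (h w hw.1)

theorem sg_ev {b c : unitInterval} (h : c ≠ b) : ∀ᶠ w in 𝓝 b, sg B w c = sg B b c := by
  rcases lt_or_gt_of_ne h with h1 | h1
  · filter_upwards [Ioi_mem_nhds h1] with w hw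
    have : c < w := hw
    simp [sg, this, h1]
  · filter_upwards [Iio_mem_nhds h1] with w hw
    have : w < c := hw
    simp [sg, this.not_gt, h1.not_gt]

theorem z_sg {z : E K} (hz : z ∈ Z B pt) {c : unitInterval} (h : c ≠ z.2.1 ∨ c ∉ B) :
    z.2.2 c = sg B z.2.1 c := by
  by_contra hn
  have h0 : ∀ᶠ w in 𝓝 z.2.1, sg B w c = sg B z.2.1 c := by
    rcases h with h | h
    · exact sg_ev h
    · simp [sg, h]
  have h1 : ∀ᶠ y : E K in 𝓝 z, sg B y.2.1 c = sg B z.2.1 c :=
    (by fun_prop : Continuous fun y : E K => y.2.1).continuousAt.eventually h0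
  have h2 : ∀ᶠ y : E K in 𝓝 z, y.2.2 c ≠ sg B z.2.1 c :=
    (isOpen_ne_fun (by fun_prop) continuous_const).mem_nhds hn
  refine hz _ (h1.and h2) (countable_empty.mono ?_)
  intro w hw
  exact hw.2.2 hw.2.1

theorem z_zz (h : Frame B pt) {z : E K} (hz : z ∈ Z B pt) (hb : z.2.1 ∈ B) :
    ∃ t, z = zz B pt z.2.1 t := by
  obtain ⟨R, h1, h2⟩ := h.rel
  have h3 : (z.1, z.2.1) ∈ R :=
    z_sub (T := {y : E K | (y.1, y.2.1) ∈ R}) (h1.preimage (by fun_prop))
      (fun w hw => (h2 w hw _).2 (Or.inl rfl)) hz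
  have h4 : z.2.2 = Function.update (sg B z.2.1) z.2.1 (z.2.2 z.2.1) := by
    funext c
    by_cases hc : c = z.2.1
    · rw [hc, Function.update_self]
    · rw [Function.update_of_ne hc, z_sg hz (Or.inl hc)]
  rcases (h2 _ hb _).1 h3 with h5 | h5
  · exact ⟨(false, z.2.2 z.2.1), Prod.ext h5 (Prod.ext rfl h4)⟩
  · exact ⟨(true, z.2.2 z.2.1), Prod.ext h5 (Prod.ext rfl h4)⟩

theorem near {b : unitInterval} (hb : b ∈ B) (t : Bool × Bool) {N : Set (E K)}
    (hN : N ∈ 𝓝 (zz B pt b t)) : ∃ U ∈ 𝓝 (pt t.1 b), ∃ V ∈ 𝓝 b,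
      ∀ w ∈ V, side t.2 w b → pt false w ∈ U → xx B pt w ∈ N := by
  have h1 : Tendsto (fun s : K × unitInterval => ((s.1, s.2, sg B s.2) : E K))
      (𝓝[{s | side t.2 s.2 b}] (pt t.1 b, b)) (𝓝 (zz B pt b t)) := by
    refine (continuous_fst.continuousAt.mono_left nhdsWithin_le_nhds).prodMk_nhds
      ((continuous_snd.continuousAt.mono_left nhdsWithin_le_nhds).prodMk_nhds
        (tendsto_pi_nhds.2 fun c => tendsto_const_nhds.congr' ?_))
    by_cases hc : c = b
    · filter_upwards [self_mem_nhdsWithin] with s hs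
      rw [hc, Function.update_self]
      rcases t with ⟨j, _ | _⟩
      · have : s.2 < b := hs
        simp [sg, this.not_gt]
      · have : b < s.2 := hs
        simp [sg, this, hb]
    · have h0 : ∀ᶠ s : K × unitInterval in 𝓝 (pt t.1 b, b), sg B s.2 c = sg B b c :=
        continuous_snd.continuousAt.eventually (sg_ev hc)
      filter_upwards [mem_nhdsWithin_of_mem_nhds h0] with s hs
      rw [Function.update_of_ne hc, hs]
  obtain ⟨U, hU, V, hV, h2⟩ := mem_nhds_prod_iff.1 (mem_inf_principal.1 (h1 hN))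
  exact ⟨U, hU, V, hV, fun w hw hs hp => h2 (mk_mem_prod hp hw) hs⟩

theorem fat_iff {b : unitInterval} (hb : b ∈ B) (t : Bool × Bool) :
    Fat pt B b t ↔ zz B pt b t ∈ Z B pt := by
  constructor
  · intro h N hN hc
    obtain ⟨U, hU, V, hV, h2⟩ := near hb t hN
    refine h U hU V hV (hc.mono ?_)
    intro w hw
    exact ⟨hw.1, h2 w hw.2.1 hw.2.2.1 hw.2.2.2⟩
  · intro h U hU V hV hc
    have hcont : Continuous fun τ : unitInterval → Bool => τ b := continuous_apply b
    have h0 : IsOpen ((fun τ : unitInterval → Bool => τ b) ⁻¹' {t.2}) :=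
      IsOpen.preimage hcont (isOpen_discrete _)
    have h1 : {τ : unitInterval → Bool | τ b = t.2} ∈ 𝓝 (Function.update (sg B b) b t.2) :=
      h0.mem_nhds (by simp)
    refine h _ (prod_mem_nhds hU (prod_mem_nhds hV h1)) ((hc.insert b).mono ?_)
    rintro w ⟨hw, h2, h3, h4⟩
    by_cases hwb : w = b
    · exact Or.inl hwb
    refine Or.inr ⟨hw, h3, ?_, h2⟩
    have h5 : sg B w b = t.2 := h4
    rcases t with ⟨j, _ | _⟩
    · have : ¬ b < w := by simpa [sg, hb] using h5
      exact lt_of_le_of_ne (not_lt.1 this) hwb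
    · have : b < w := by simpa [sg, hb] using h5
      exact this

theorem lind_t [CompactSpace K] [T2Space K] (rs : RS.{0}) (h : Frame B pt) (t : Bool × Bool)
    (hn : ∀ C ⊆ B, ¬ C.Countable → (∀ b ∈ C, Fat pt B b t) → ∃ b ∈ C, Fat pt C b t)
    {S : Set (E K)} (hS : S ⊆ Z B pt) : IsLindelof {z ∈ S | ∃ b ∈ B, z = zz B pt b t} := by
  refine isLindelof_of_countable_subcover fun {ι} U hU hc => ?_
  by_contra hno
  have h1 : ∀ b, b ∈ B ∧ zz B pt b t ∈ S → ∃ i, zz B pt b t ∈ U i := fun b hb =>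
    mem_iUnion.1 (hc ⟨hb.2, b, hb.1, rfl⟩)
  choose j hj using h1
  obtain ⟨Y, hY, hY1, hY2⟩ := rs unitInterval {b | b ∈ B ∧ zz B pt b t ∈ S}
    (fun b => {w | ∀ hb, zz B pt w t ∈ U (j b hb)}) (fun b _ hb => hj b hb) (by
      intro T hT hTc
      by_contra h2
      push Not at h2
      have := hTc.to_subtype
      refine hno ⟨range fun b : T => j b (hT b.2), countable_range _, ?_⟩
      rintro z ⟨hz, w, hw, rfl⟩
      obtain ⟨b, hb, h3⟩ := h2 w ⟨hw, hz⟩
      exact mem_biUnion (mem_range_self ⟨b, hb⟩) (h3 _))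
  obtain ⟨b, hb, hf⟩ := hn Y (fun b hb => (hY hb).1) hY1
    fun b hb => (fat_iff (hY hb).1 t).2 (hS (hY hb).2)
  obtain ⟨N, n1, n2, n3⟩ := exists_mem_nhds_isClosed_subset ((hU _).mem_nhds (hj b (hY hb)))
  obtain ⟨U', hU', V, hV, h2⟩ := near (hY hb).1 t n1
  refine hf U' hU' V hV (((hY2 b hb).union (nse h N _ n2 (hU (j b (hY hb))).isClosed_compl
    (disjoint_compl_right_iff_subset.2 n3))).mono ?_)
  rintro w ⟨hw, h3, h4, h5⟩
  by_cases h6 : zz B pt w t ∈ U (j b (hY hb))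
  · exact Or.inl ⟨hw, fun _ => h6⟩
  · exact Or.inr ⟨(hY hw).1, ⟨_, xx_ov w, h2 w h3 h4 h5⟩, _, zz_ov w t, h6⟩

theorem lind_0 [HereditarilyLindelofSpace (K × unitInterval)] {S : Set (E K)} (hS : S ⊆ Z B pt) :
    IsLindelof {z ∈ S | z.2.1 ∉ B} := by
  have h1 : ContinuousOn (fun s : K × unitInterval => ((s.1, s.2, sg B s.2) : E K))
      ((fun z : E K => (z.1, z.2.1)) '' {z ∈ S | z.2.1 ∉ B}) := by
    rintro _ ⟨z, hz, rfl⟩
    refine ContinuousAt.continuousWithinAt (continuous_fst.continuousAt.prodMk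
      (continuous_snd.continuousAt.prodMk (continuousAt_pi.2 fun c => ?_)))
    refine EventuallyEq.continuousAt (y := sg B z.2.1 c) ?_
    by_cases hc : c = z.2.1
    · have : c ∉ B := hc ▸ hz.2
      exact Eventually.of_forall fun s => by simp [sg, this]
    · exact continuous_snd.continuousAt.eventually (sg_ev hc)
  have h2 := (HereditarilyLindelofSpace.isLindelof _).image_of_continuousOn h1
  rw [image_image] at h2
  have h3 : ∀ z ∈ {z ∈ S | z.2.1 ∉ B}, ((z.1, z.2.1, sg B z.2.1) : E K) = id z := by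
    intro z hz
    refine Prod.ext rfl (Prod.ext rfl (funext fun c => (z_sg (hS hz.1) ?_).symm))
    by_cases hc : c = z.2.1
    · exact Or.inr (hc ▸ hz.2)
    · exact Or.inl hc
  rwa [image_congr h3, image_id] at h2

end ThinL

open ThinL in
theorem thin (rs : RS.{0}) (hls : HLs.{u}) (nsm : NSM.{u, 0}) : Thin.{u} := by
  intro hF K _ _ _ _ B pt h
  by_contra hno
  obtain ⟨n1, n2⟩ := not_or.1 hno
  have := hls.2.2.1 K
  have hl : ∀ S ⊆ Z B pt, IsLindelof S := by
    intro S hS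
    have h1 : S = {z ∈ S | z.2.1 ∉ B} ∪ ⋃ t, {z ∈ S | ∃ b ∈ B, z = zz B pt b t} := by
      refine Subset.antisymm (fun z hz => ?_) (union_subset (sep_subset _ _)
        (iUnion_subset fun t => sep_subset _ _))
      by_cases hb : z.2.1 ∈ B
      · obtain ⟨t, ht⟩ := z_zz h (hS hz) hb
        exact Or.inr (mem_iUnion.2 ⟨t, hz, _, hb, ht⟩)
      · exact Or.inl ⟨hz, hb⟩
    rw [h1]
    refine (lind_0 hS).union (isLindelof_iUnion fun t => lind_t rs h t (fun C h2 h3 h4 => ?_) hS)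
    by_contra h5
    exact n2 ⟨C, h2, h3, t, fun b hb => ⟨h4 b hb, fun h6 => h5 ⟨b, hb, h6⟩⟩⟩
  have : CompactSpace (Z B pt) := isCompact_iff_compactSpace.1 z_closed.isCompact
  have : HereditarilyLindelofSpace (Z B pt) := HereditarilyLindelofSpace.of_forall_isOpen
    fun s _ => Subtype.isLindelof_iff.2 (hl _ (Subtype.coe_image_subset _ _))
  have := hls.2.1 (Z B pt)
  obtain ⟨M, _, _, _, f, f1, -, f2⟩ := hF (Z B pt)
  have hv : IsClosedEmbedding (Subtype.val : Z B pt → E K) := z_closed.isClosedEmbedding_subtypeVal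
  have hns : NS B fun w => (Subtype.val ⁻¹' Ov B pt w : Set (Z B pt)) := by
    intro F G hF hG hd
    refine (nse h _ _ (hv.isClosedMap F hF) (hv.isClosedMap G hG)
      ((disjoint_image_iff hv.injective).2 hd)).mono ?_
    rintro w ⟨hw, ⟨y, h1, h2⟩, z, h3, h4⟩
    exact ⟨hw, ⟨y, h1, y, h2, rfl⟩, z, h3, z, h4, rfl⟩
  refine n1 ((nsm _ _ B _ hns M f f1).mono ?_)
  rintro b ⟨hb, h2⟩
  refine ⟨hb, ?_⟩
  by_contra h3
  push Not at h3
  obtain ⟨t0, ht0⟩ : {t | Fat pt B b t}.Nonempty :=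
    encard_pos.1 (lt_trans (by norm_num) h2)
  refine h2.not_ge (le_trans ?_ (f2 (f ⟨_, (fat_iff hb t0).1 ht0⟩)))
  rw [← hv.injective.encard_image]
  refine encard_le_encard_of_injOn (f := zz B pt b) (fun t ht => ?_) ?_
  · exact ⟨⟨_, (fat_iff hb t).1 ht⟩, h3 _ (zz_ov b t) _ (zz_ov b t0), rfl⟩
  · rintro ⟨i, ε⟩ - ⟨j, η⟩ - e
    have e1 : pt i b = pt j b := congrArg Prod.fst e
    have e2 := congrArg (fun z : E K => z.2.2 b) e
    simp only [zz, Function.update_self] at e2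
    refine Prod.ext ?_ e2
    have := h.ne b hb
    cases i <;> cases j <;> simp_all

end Pool.Agent.MP_b60a07_lc.FG
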