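import Pool.Agent.MP_b60a07_lc.FG.Spec

/-! An unsplit family of triples from a failure of (F). -/

namespace Pool.Agent.MP_b60a07_lc.FG

open Set Topology TopologicalSpace Filter

universe u v

namespace TriL

theorem sep {K : Type u} [TopologicalSpace K] [CompactSpace K] [T2Space K] (t : K × K × K) :
    ∃ g : K → ℝ, Continuous g ∧ ((t.1 ≠ t.2.1 ∧ t.1 ≠ t.2.2 ∧ t.2.1 ≠ t.2.2) →
      g t.1 ≠ g t.2.1 ∧ g t.1 ≠ g t.2.2 ∧ g t.2.1 ≠ g t.2.2) := by
  by_cases h : t.1 ≠ t.2.1 ∧ t.1 ≠ t.2.2 ∧ t.2.1 ≠ t.2.2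
  · obtain ⟨a, b, c⟩ := t
    obtain ⟨h1, h2, h3⟩ := h
    simp only at h1 h2 h3
    have d1 : Disjoint ({a} : Set K) {b, c} := by
      rw [disjoint_singleton_left]
      simp [h1, h2]
    have d2 : Disjoint ({a, b} : Set K) {c} := by
      rw [disjoint_singleton_right]
      simp [h2.symm, h3.symm]
    obtain ⟨f1, p1, q1, -⟩ := exists_continuous_zero_one_of_isClosed
      (isClosed_singleton (x := a)) (toFinite ({b, c} : Set K)).isClosed d1
    obtain ⟨f2, p2, q2, -⟩ := exists_continuous_zero_one_of_isClosed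
      (toFinite ({a, b} : Set K)).isClosed (isClosed_singleton (x := c)) d2
    have e1 : f1 a = 0 := p1 (by simp)
    have e2 : f1 b = 1 := q1 (by simp)
    have e3 : f1 c = 1 := q1 (by simp)
    have e4 : f2 a = 0 := p2 (by simp)
    have e5 : f2 b = 0 := p2 (by simp)
    have e6 : f2 c = 1 := q2 (by simp)
    refine ⟨fun x => f1 x + f2 x, f1.continuous.add f2.continuous, fun _ => ?_⟩
    simp only [e1, e2, e3, e4, e5, e6]
    norm_num
  · exact ⟨fun _ => 0, continuous_const, fun h' => (h h').elim⟩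

theorem enc {α : Type u} (s : Set α) (h : ¬ s.encard ≤ 2) :
    ∃ a ∈ s, ∃ b ∈ s, ∃ c ∈ s, a ≠ b ∧ a ≠ c ∧ b ≠ c := by
  have h3 : (3 : ℕ∞) ≤ s.encard := by
    have : (2 : ℕ∞) + 1 ≤ s.encard := Order.add_one_le_of_lt (not_le.1 h)
    exact this
  obtain ⟨t, ht, he⟩ := exists_subset_encard_eq h3
  obtain ⟨a, b, c, h1, h2, h4, rfl⟩ := encard_eq_three.1 he
  exact ⟨a, ht (by simp), b, ht (by simp), c, ht (by simp), h1, h2, h4⟩

end TriL

theorem tri (rs : RS.{u}) (hls : HLs.{u}) : Tri.{u} := by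
  intro hF
  by_contra hcon
  apply hF
  intro K _ _ _ _
  by_contra hK
  apply hcon
  choose g hgc hg using TriL.sep (K := K)
  obtain ⟨Y, hYS, hY, hc⟩ := rs (K × K × K) {t | t.1 ≠ t.2.1 ∧ t.1 ≠ t.2.2 ∧ t.2.1 ≠ t.2.2}
    (fun t => {s | ¬ (g t s.1 = g t s.2.1 ∧ g t s.1 = g t s.2.2)})
    (fun x hx h => (hg x hx).1 h.1) (by
      intro T _ hT
      by_contra hno
      apply hK
      have : Countable T := hT.to_subtype
      have hΦ : Continuous fun (x : K) (t : T) => g t x := continuous_pi fun t => hgc t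
      refine ⟨range fun (x : K) (t : T) => g t x, inferInstance,
        isCompact_iff_compactSpace.1 (isCompact_range hΦ), inferInstance,
        rangeFactorization _, hΦ.rangeFactorization, rangeFactorization_surjective, ?_⟩
      intro y
      by_contra hy
      obtain ⟨a, ha, b, hb, c, hc, h1, h2, h3⟩ := TriL.enc _ hy
      refine hno ⟨(a, b, c), ⟨h1, h2, h3⟩, fun t ht hn => hn ⟨?_, ?_⟩⟩
      · exact congrFun (congrArg Subtype.val (ha.trans (Eq.symm hb))) ⟨t, ht⟩
      · exact congrFun (congrArg Subtype.val (ha.trans (Eq.symm hc))) ⟨t, ht⟩)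
  have hΦ : Continuous fun (x : K) (t : Y) => g t x := continuous_pi fun t => hgc t
  have i1 : CompactSpace (range fun (x : K) (t : Y) => g t x) :=
    isCompact_iff_compactSpace.1 (isCompact_range hΦ)
  have i2 : HereditarilyLindelofSpace K := hls.1 K
  have i3 : HereditarilyLindelofSpace (range fun (x : K) (t : Y) => g t x) :=
    hls.2.2.2 K _ (rangeFactorization _) hΦ.rangeFactorization rangeFactorization_surjective
  refine ⟨range fun (x : K) (t : Y) => g t x, inferInstance, i1, inferInstance, hls.2.1 _,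
    K × K × K, Y, fun b => rangeFactorization _ b.1, fun b => rangeFactorization _ b.2.1,
    fun b => rangeFactorization _ b.2.2, hY, ?_, ?_⟩
  · intro b hb
    obtain ⟨h1, h2, h3⟩ := hg b (hYS hb)
    exact ⟨fun h => h1 (congrFun (congrArg Subtype.val h) ⟨b, hb⟩),
      fun h => h2 (congrFun (congrArg Subtype.val h) ⟨b, hb⟩),
      fun h => h3 (congrFun (congrArg Subtype.val h) ⟨b, hb⟩)⟩
  · intro F G hF hG hd
    obtain ⟨s, hs⟩ := (hF.isCompact.prod hG.isCompact).elim_finite_subcover
      (fun t : Y => {p | p.1.1 t ≠ p.2.1 t})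
      (fun t => isOpen_ne_fun
        ((continuous_apply t).comp (continuous_subtype_val.comp continuous_fst))
        ((continuous_apply t).comp (continuous_subtype_val.comp continuous_snd))) (by
        rintro ⟨a, b⟩ ⟨ha, hb⟩
        by_contra hn
        have hab : a = b := by
          apply Subtype.ext
          funext t
          by_contra h
          exact hn (mem_iUnion.2 ⟨t, h⟩)
        subst hab
        exact disjoint_left.1 hd ha hb)
    refine (s.countable_toSet.biUnion fun t _ => hc t t.2).mono ?_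
    rintro w ⟨hw, ⟨a, ha, haF⟩, ⟨b, hb, hbG⟩⟩
    obtain ⟨t, ht, hne⟩ := mem_iUnion₂.1 (hs (mk_mem_prod haF hbG))
    refine mem_iUnion₂.2 ⟨t, ht, hw, fun h => hne ?_⟩
    have key : ∀ c ∈ ({rangeFactorization (fun (x : K) (t : Y) => g t x) w.1,
        rangeFactorization (fun (x : K) (t : Y) => g t x) w.2.1,
        rangeFactorization (fun (x : K) (t : Y) => g t x) w.2.2} : Set _),
        c.1 t = g t w.1 := by
      rintro c (rfl | rfl | rfl)
      · rfl
      · exact h.1.symm
      · exact h.2.symm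
    exact (key a ha).trans (key b hb).symm

end Pool.Agent.MP_b60a07_lc.FG
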