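import Pool.Agent.MP_b60a07_lc.FG.Rs
import Pool.Agent.MP_b60a07_lc.FG.Hl
import Pool.Agent.MP_b60a07_lc.FG.Setup
import Pool.Agent.MP_b60a07_lc.FG.Thin
import Pool.Agent.MP_b60a07_lc.FG.Pat
import Pool.Agent.MP_b60a07_lc.FG.Nest
import Pool.Agent.MP_b60a07_lc.FG.Emb
import Pool.Agent.MP_b60a07_lc.FG.Step
import Pool.Agent.MP_b60a07_lc.FG.Tri

/-! Statements (F) and (H) are equivalent. -/

namespace Pool.Agent.MP_b60a07_lc.FG

open Set Topology TopologicalSpace Filter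

universe u

theorem uncountable_diff {ι : Type*} {B C : Set ι} (hB : ¬ B.Countable) (hC : C.Countable) :
    ¬ (B \ C).Countable := fun h => hB ((h.union hC).mono fun x hx => by
  by_cases h1 : x ∈ C
  · exact Or.inr h1
  · exact Or.inl ⟨hx, h1⟩)

theorem two_types (hF : Fremlin.{u}) {K : Type u} [TopologicalSpace K] [CompactSpace K]
    [T2Space K] [HereditarilyLindelofSpace K] {pt : Bool → unitInterval → K} (n : ℕ) :
    ∀ B : Set unitInterval, ¬ B.Countable → Frame B pt →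
      (∀ b ∈ B, {t | Fat pt B b t}.encard ≤ n) →
      ∃ C ⊆ B, ¬ C.Countable ∧ ∀ b ∈ C, {t | Fat pt C b t}.encard ≤ 2 := by
  induction n with
  | zero => exact fun B h1 _ h3 => ⟨B, subset_rfl, h1, fun b hb => (h3 b hb).trans (by norm_num)⟩
  | succ n ih =>
    intro B h1 h2 h3
    rcases thin rs hls nsm hF K B pt h2 with h4 | ⟨C, h4, h5, t, h6⟩
    · refine ⟨_, sdiff_subset, uncountable_diff h1 h4, fun b hb => ?_⟩
      refine le_trans (encard_le_encard fun t ht => Fat.mono ht sdiff_subset) ?_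
      exact not_lt.1 fun h => hb.2 ⟨hb.1, h⟩
    · obtain ⟨D, d1, d2, d3⟩ := ih C h5 (h2.mono h4) fun b hb => by
        have e1 : insert t {t | Fat pt C b t} ⊆ {t | Fat pt B b t} :=
          insert_subset (h6 b hb).1 fun s hs => Fat.mono hs h4
        have e2 := (encard_le_encard e1).trans (h3 b (h4 hb))
        rw [encard_insert_of_notMem (h6 b hb).2, Nat.cast_succ] at e2
        exact (ENat.add_le_add_iff_right ENat.one_ne_top).1 e2
      exact ⟨D, d1.trans h4, d2, d3⟩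

theorem copies_of_fremlin (hF : Fremlin.{u}) : PairCopies.{u} := by
  intro K _ _ _ _ P h1 h2
  obtain ⟨M, _, _, _, f, f1, -, f2⟩ := hF K
  have := hls.1 K
  obtain ⟨B, pt, b1, b2, b3⟩ := setup rs cond K M f f1 f2 P h1 h2
  obtain ⟨C, c1, c2, c3⟩ := two_types hF 4 B b1 b2 fun b _ => by
    refine (encard_le_encard (subset_univ _)).trans ?_
    simp [encard_univ]
  obtain ⟨D, d1, d2, i, d3⟩ := pat cond two hls K C pt c2 (b2.mono c1) c3
  obtain ⟨A, a1, a2, a3, W, a4⟩ := nest two K D pt i d2 (b2.mono (d1.trans c1)) d3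
  have hA := (a1.trans d1).trans c1
  refine ⟨A, a2, _, emb K A pt i W (b2.mono hA) a3 a4, fun a => ?_⟩
  cases i
  · exact Or.inl (b3 a (hA a.2))
  · exact Or.inr (b3 a (hA a.2))

theorem fremlin_of_copies (hH : PairCopies.{u}) : Fremlin.{u} := by
  by_contra hF
  obtain ⟨K, _, _, _, _, ι, B, x, y, z, hB, hne, hns⟩ := tri rs hls hF
  obtain ⟨C, c1, c2, r, c3⟩ := step nsm hH K ι B x y hB (fun b hb => (hne b hb).1)
    (hns.mono subset_rfl fun w _ => by simp [insert_subset_iff])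
  obtain ⟨D, d1, d2, s, d3⟩ := step nsm hH K ι C y z c2 (fun b hb => (hne b (c1 hb)).2.2)
    (hns.mono c1 fun w _ => by simp)
  obtain ⟨G, g1, g2, t, g3⟩ := step nsm hH K ι D x z d2
    (fun b hb => (hne b (c1 (d1 hb))).2.1)
    (hns.mono (d1.trans c1) fun w _ => by simp [insert_subset_iff])
  obtain ⟨b, hb, hc⟩ : (G \ _).Nonempty := nonempty_iff_ne_empty.2 fun e =>
    uncountable_diff g2 (cond (unitInterval × unitInterval × unitInterval) ι
      (fun w => (r w, s w, t w)) G) (e ▸ countable_empty)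
  obtain ⟨n1, n2, n3⟩ := hne b (c1 (d1 (g1 hb)))
  obtain ⟨U, V, hU, hV, h1, h2, h3⟩ : ∃ U V : Set K, IsOpen U ∧ IsOpen V ∧ {x b} ⊆ U ∧
      {y b, z b} ⊆ V ∧ Disjoint (closure U) (closure V) := by
    obtain ⟨U, hU, k1, k2⟩ := normal_exists_closure_subset (isClosed_singleton (x := x b))
      ((toFinite {y b, z b}).isClosed.isOpen_compl) (by simp [n1, n2])
    obtain ⟨V, hV, k3, k4⟩ := normal_exists_closure_subset (toFinite {y b, z b}).isClosed
      (isClosed_closure (s := U)).isOpen_compl (subset_compl_comm.1 k2)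
    exact ⟨U, V, hU, hV, k1, k3, (disjoint_compl_right_iff_subset.2 k4).symm.mono_left
      (by simp)⟩
  obtain ⟨Y, Z, hY, hZ, h4, h5, h6⟩ := t2_separation n3
  have hx : x b ∈ U := h1 rfl
  have hy : y b ∈ V := h2 (Or.inl rfl)
  have hz : z b ∈ V := h2 (Or.inr rfl)
  obtain ⟨N1, k1, l1⟩ := c3 b (d1 (g1 hb)) (U ∪ Y) (hU.union hY) (Or.inl hx) (Or.inr h4)
  obtain ⟨N2, k2, l2⟩ := d3 b (g1 hb) V hV hy hz
  obtain ⟨N3, k3, l3⟩ := g3 b hb (U ∪ Z) (hU.union hZ) (Or.inl hx) (Or.inr h5)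
  refine hc ⟨hb, _, prod_mem_nhds k1 (prod_mem_nhds k2 k3),
    (hns _ _ isClosed_closure isClosed_closure h3).mono ?_⟩
  rintro w ⟨hw, m1, m2, m3⟩
  refine ⟨c1 (d1 (g1 hw)), ⟨x w, Or.inl rfl, subset_closure ?_⟩, y w, Or.inr (Or.inl rfl),
    subset_closure (l2 w (g1 hw) m2)⟩
  rcases l1 w (d1 (g1 hw)) m1 with e | e
  · exact e
  rcases l3 w hw m3 with e' | e'
  · exact e'
  · exact (Set.disjoint_left.1 h6 e e').elim

end Pool.Agent.MP_b60a07_lc.FG
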