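import Pool.Agent.MP_b60a07_lc.FG.BDefs
import Pool.Agent.MP_b60a07_lc.FG.Main

/-! Statement (B) implies (F). -/

namespace Pool.Agent.MP_b60a07_lc.FG

open Set Topology TopologicalSpace Filter

universe u

theorem sorg_ico {O : Set ℝ} (hO : IsOpen[sorgenfrey] O) : ∀ a ∈ O, ∃ δ > 0, Ico a (a + δ) ⊆ O := by
  induction hO with
  | basic s hs =>
    obtain ⟨c, d, rfl⟩ := hs
    exact fun a ha => ⟨d - a, sub_pos.2 ha.2, fun x hx => ⟨ha.1.trans hx.1, by linarith [hx.2]⟩⟩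
  | univ => exact fun a _ => ⟨1, one_pos, subset_univ _⟩
  | inter s t _ _ h1 h2 =>
    intro a ha
    obtain ⟨δ, d1, d2⟩ := h1 a ha.1
    obtain ⟨ε, e1, e2⟩ := h2 a ha.2
    exact ⟨min δ ε, lt_min d1 e1, fun x hx =>
      ⟨d2 ⟨hx.1, by linarith [hx.2, min_le_left δ ε]⟩,
        e2 ⟨hx.1, by linarith [hx.2, min_le_right δ ε]⟩⟩⟩
  | sUnion S _ h =>
    rintro a ⟨s, hs, ha⟩
    obtain ⟨δ, d1, d2⟩ := h s hs a ha
    exact ⟨δ, d1, d2.trans (subset_sUnion_of_mem hs)⟩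

theorem ne_of_uncountable {α : Type*} {S : Set α} (h : ¬ S.Countable) : S.Nonempty :=
  nonempty_iff_ne_empty.2 fun e => h (e ▸ countable_empty)

variable {K : Type u} [TopologicalSpace K] {ι : Type u}

theorem ns_one [PerfectlyNormalSpace K] {C : Set ι} {p q : ι → K}
    (h : NS C fun b => {p b, q b}) {F : Set K} (hF : IsClosed F) :
    {w ∈ C | p w ∈ F ∧ q w ∉ F}.Countable := by
  obtain ⟨f, h1, h2⟩ := hF.isGδ.eq_iInter_nat
  refine (countable_iUnion fun n => h F (f n)ᶜ hF (h1 n).isClosed_compl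
    (disjoint_compl_right_iff_subset.2 (h2 ▸ iInter_subset f n))).mono ?_
  rintro w ⟨hw, h3, h4⟩
  rw [h2, mem_iInter, not_forall] at h4
  obtain ⟨n, hn⟩ := h4
  exact mem_iUnion.2 ⟨n, hw, ⟨p w, Or.inl rfl, h3⟩, q w, Or.inr rfl, hn⟩

theorem stepB (hB : Basis.{u}) [CompactSpace K] [T2Space K] [PerfectlyNormalSpace K] {C : Set ι}
    {p q : ι → K} (hC : ¬ C.Countable) (hne : ∀ b ∈ C, p b ≠ q b)
    (h : NS C fun b => {p b, q b}) : ∃ D ⊆ C, ¬ D.Countable ∧ ∃ r : ι → ℝ, InjOn r D ∧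
      ∀ b ∈ D, ∀ U : Set K, IsOpen U → p b ∈ U →
        ∃ δ > 0, ∀ w ∈ D, r w ∈ Ico (r b) (r b + δ) → p w ∈ U := by
  classical
  have hX : ¬ (p '' C).Countable := by
    intro hc
    refine hC ((hc.biUnion fun y _ => ns_one h (isClosed_singleton (x := y))).mono ?_)
    intro w hw
    exact mem_biUnion (mem_image_of_mem p hw) ⟨hw, rfl, (hne w hw).symm⟩
  obtain ⟨Y, y1, y2, y3⟩ := hB K _ hX
  have hβ : ∀ y : Y, ∃ w ∈ C, p w = y := fun y => y1 y.2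
  choose β b1 b2 using hβ
  have hi : Function.Injective β := fun a b e => Subtype.ext (by rw [← b2, e, b2])
  have hD : ¬ (range β).Countable := by
    intro hc
    refine y2 ((hc.image p).mono ?_)
    intro y hy
    exact ⟨_, mem_range_self ⟨y, hy⟩, b2 _⟩
  rcases y3 with y3 | ⟨ρ, y3⟩
  · exfalso
    have := hls.1 K
    let _ := metrizableSpaceMetric Y
    have : SecondCountableTopology Y := inferInstance
    refine hD (((countable_countableBasis Y).biUnion fun O _ =>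
      ns_one h (isClosed_closure (s := Subtype.val '' O))).mono ?_)
    rintro _ ⟨y, rfl⟩
    obtain ⟨N, n1, n2, n3⟩ := exists_mem_nhds_isClosed_subset
      (isOpen_compl_singleton.mem_nhds (hne _ (b1 y)))
    rw [b2] at n1
    obtain ⟨O, o1, o2, o3⟩ := (isBasis_countableBasis Y).mem_nhds_iff.1
      (continuous_subtype_val.continuousAt.preimage_mem_nhds n1)
    refine mem_biUnion o1 ⟨b1 y, subset_closure ⟨y, o2, (b2 y).symm⟩, fun hq => ?_⟩
    exact n3 (closure_minimal (image_subset_iff.2 o3) n2 hq) rfl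
  · let _ := sorgenfrey
    have hr : ∀ y : Y, Function.extend β ρ 0 (β y) = ρ y := fun y => hi.extend_apply _ _ y
    refine ⟨range β, range_subset_iff.2 b1, hD, Function.extend β ρ 0, ?_, ?_⟩
    · rintro _ ⟨a, rfl⟩ _ ⟨b, rfl⟩ e
      rw [hr, hr] at e
      rw [y3.injective e]
    · rintro _ ⟨a, rfl⟩ U hU ha
      obtain ⟨O, o1, o2⟩ := y3.isInducing.isOpen_iff.1 (hU.preimage continuous_subtype_val)
      have h1 : ∀ y : Y, ρ y ∈ O ↔ p (β y) ∈ U := fun y => by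
        rw [b2]
        exact Set.ext_iff.1 o2 y
      obtain ⟨δ, d1, d2⟩ := sorg_ico o1 _ ((h1 a).2 ha)
      refine ⟨δ, d1, ?_⟩
      rintro _ ⟨w, rfl⟩ hw
      rw [hr, hr] at hw
      exact (h1 w).1 (d2 hw)

/-- Few points of `D` lie just above `b` in both coordinates. -/
def Few (D : Set ι) (r s : ι → ℝ) (b : ι) (δ : ℝ) : Prop :=
  {w ∈ D | r w ∈ Ioo (r b) (r b + δ) ∧ s w ∈ Ioo (s b) (s b + δ)}.Countable

theorem Few.mono {D : Set ι} {r s : ι → ℝ} {b : ι} {δ ε : ℝ} (h : Few D r s b δ) (hε : ε ≤ δ) :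
    Few D r s b ε := by
  refine Countable.mono ?_ h
  rintro w ⟨hw, h1, h2⟩
  exact ⟨hw, ⟨h1.1, by linarith [h1.2]⟩, h2.1, by linarith [h2.2]⟩

theorem few_of [CompactSpace K] [T2Space K] {D : Set ι} {p q : ι → K} {r s : ι → ℝ} {b : ι}
    (hne : p b ≠ q b) (h : NS D fun b => {p b, q b})
    (hr : ∀ U : Set K, IsOpen U → p b ∈ U →
      ∃ δ > 0, ∀ w ∈ D, r w ∈ Ico (r b) (r b + δ) → p w ∈ U)
    (hs : ∀ U : Set K, IsOpen U → q b ∈ U →
      ∃ δ > 0, ∀ w ∈ D, s w ∈ Ico (s b) (s b + δ) → q w ∈ U) : ∃ δ > 0, Few D r s b δ := by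
  obtain ⟨U, V, hU, hV, h1, h2, h3⟩ := t2_separation hne
  obtain ⟨F, f1, f2, f3⟩ := exists_mem_nhds_isClosed_subset (hU.mem_nhds h1)
  obtain ⟨G, g1, g2, g3⟩ := exists_mem_nhds_isClosed_subset (hV.mem_nhds h2)
  obtain ⟨δ, d1, d2⟩ := hr _ isOpen_interior (mem_interior_iff_mem_nhds.2 f1)
  obtain ⟨ε, e1, e2⟩ := hs _ isOpen_interior (mem_interior_iff_mem_nhds.2 g1)
  refine ⟨min δ ε, lt_min d1 e1, (h F G f2 g2 (h3.mono f3 g3)).mono ?_⟩
  rintro w ⟨hw, k1, k2⟩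
  exact ⟨hw, ⟨p w, Or.inl rfl, interior_subset
      (d2 w hw ⟨k1.1.le, by linarith [k1.2, min_le_left δ ε]⟩)⟩, q w, Or.inr rfl,
    interior_subset (e2 w hw ⟨k2.1.le, by linarith [k2.2, min_le_right δ ε]⟩)⟩

theorem three {D : Set ι} {r s t : ι → ℝ} (hD : ¬ D.Countable) (hr : InjOn r D) (hs : InjOn s D)
    (ht : InjOn t D) (h : ∀ b ∈ D, ∃ δ > 0, Few D r s b δ ∧ Few D r t b δ ∧ Few D s t b δ) :
    False := by
  obtain ⟨n, hn⟩ : ∃ n : ℕ, ¬ {b ∈ D | Few D r s b (1 / (n + 1)) ∧ Few D r t b (1 / (n + 1)) ∧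
      Few D s t b (1 / (n + 1))}.Countable := by
    by_contra hn
    push Not at hn
    refine hD ((countable_iUnion hn).mono fun b hb => ?_)
    obtain ⟨δ, d1, d2, d3, d4⟩ := h b hb
    obtain ⟨n, hn⟩ := exists_nat_one_div_lt d1
    exact mem_iUnion.2 ⟨n, hb, d2.mono hn.le, d3.mono hn.le, d4.mono hn.le⟩
  have hpos : (0 : ℝ) < 1 / (n + 1) := Nat.one_div_pos_of_nat
  generalize (1 / (n + 1) : ℝ) = δ at hn hpos
  generalize hS : {b ∈ D | Few D r s b δ ∧ Few D r t b δ ∧ Few D s t b δ} = S at hn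
  have hS1 : ∀ b ∈ S, b ∈ D ∧ Few D r s b δ ∧ Few D r t b δ ∧ Few D s t b δ := fun b hb => by
    rw [← hS] at hb
    exact hb
  have hc := cond (ℝ × ℝ × ℝ) ι (fun w => (r w, s w, t w)) S
  generalize hT : {b ∈ S | ∃ U ∈ 𝓝 (r b, s b, t b), {w ∈ S | (r w, s w, t w) ∈ U}.Countable} = T
    at hc
  have hT1 : ∀ b ∈ S \ T, ∀ U ∈ 𝓝 (r b, s b, t b),
      ¬ {w ∈ S | (r w, s w, t w) ∈ U}.Countable := fun b hb U hU hc =>
    hb.2 (hT ▸ ⟨hb.1, U, hU, hc⟩)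
  have key : ∀ b ∈ S, ∀ c ∈ S \ T, r c < r b + δ → s c < s b + δ → t c < t b + δ →
      ¬ (r b < r c ∧ s b < s c) ∧ ¬ (r b < r c ∧ t b < t c) ∧ ¬ (s b < s c ∧ t b < t c) := by
    intro b hb c hc h1 h2 h3
    obtain ⟨-, f1, f2, f3⟩ := hS1 b hb
    refine ⟨fun e => hT1 c hc _ (prod_mem_nhds (Ioo_mem_nhds e.1 h1)
        (prod_mem_nhds (Ioo_mem_nhds e.2 h2) univ_mem)) (Countable.mono ?_ f1),
      fun e => hT1 c hc _ (prod_mem_nhds (Ioo_mem_nhds e.1 h1)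
        (prod_mem_nhds univ_mem (Ioo_mem_nhds e.2 h3))) (Countable.mono ?_ f2),
      fun e => hT1 c hc _ (prod_mem_nhds univ_mem
        (prod_mem_nhds (Ioo_mem_nhds e.1 h2) (Ioo_mem_nhds e.2 h3))) (Countable.mono ?_ f3)⟩
    · exact fun w hw => ⟨(hS1 w hw.1).1, hw.2.1, hw.2.2.1⟩
    · exact fun w hw => ⟨(hS1 w hw.1).1, hw.2.1, hw.2.2.2⟩
    · exact fun w hw => ⟨(hS1 w hw.1).1, hw.2.2.1, hw.2.2.2⟩
  obtain ⟨b, hb⟩ := ne_of_uncountable (uncountable_diff hn hc)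
  have h1 := uncountable_diff (hT1 b hb _ (Metric.ball_mem_nhds _ hpos)) (hc.insert b)
  obtain ⟨c, ⟨c1, c2⟩, c3⟩ := ne_of_uncountable h1
  rw [mem_insert_iff, not_or] at c3
  simp only [Metric.mem_ball, Prod.dist_eq, max_lt_iff, Real.dist_eq, abs_lt] at c2
  obtain ⟨⟨r1, r2⟩, ⟨s1, s2⟩, t1, t2⟩ := c2
  have k1 := key b hb.1 c ⟨c1, c3.2⟩ (by linarith) (by linarith) (by linarith)
  have k2 := key c c1 b hb (by linarith) (by linarith) (by linarith)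
  have hbD := (hS1 b hb.1).1
  have hcD := (hS1 c c1).1
  have e1 := lt_or_gt_of_ne fun e => c3.1 (hr hcD hbD e)
  have e2 := lt_or_gt_of_ne fun e => c3.1 (hs hcD hbD e)
  have e3 := lt_or_gt_of_ne fun e => c3.1 (ht hcD hbD e)
  tauto

theorem fremlin_of_basis (hB : Basis.{u}) : Fremlin.{u} := by
  by_contra hF
  obtain ⟨K, _, _, _, _, ι, B, x, y, z, h0, hne, hns⟩ := tri rs hls hF
  have nxy : NS B fun b => {x b, y b} := hns.mono subset_rfl fun w _ => by simp [insert_subset_iff]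
  have nyz : NS B fun b => {y b, z b} := hns.mono subset_rfl fun w _ => by simp
  have nxz : NS B fun b => {x b, z b} := hns.mono subset_rfl fun w _ => by simp [insert_subset_iff]
  have nzx : NS B fun b => {z b, x b} := hns.mono subset_rfl fun w _ => by simp [insert_subset_iff]
  obtain ⟨C, c1, c2, r, c3, c4⟩ := stepB hB h0 (fun b hb => (hne b hb).1) nxy
  obtain ⟨D, d1, d2, s, d3, d4⟩ := stepB hB c2 (fun b hb => (hne b (c1 hb)).2.2)
    (nyz.mono c1 fun _ _ => subset_rfl)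
  obtain ⟨G, g1, g2, t, g3, g4⟩ := stepB hB d2 (fun b hb => (hne b (c1 (d1 hb))).2.1.symm)
    (nzx.mono (d1.trans c1) fun _ _ => subset_rfl)
  have gB : G ⊆ B := (g1.trans d1).trans c1
  refine three g2 (c3.mono (g1.trans d1)) (d3.mono g1) g3 fun b hb => ?_
  have hx := fun U h1 h2 => (c4 b (d1 (g1 hb)) U h1 h2).imp
    fun δ h => And.intro h.1 fun w hw => h.2 w (d1 (g1 hw))
  have hy := fun U h1 h2 => (d4 b (g1 hb) U h1 h2).imp
    fun δ h => And.intro h.1 fun w hw => h.2 w (g1 hw)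
  obtain ⟨n1, n2, n3⟩ := hne b (gB hb)
  obtain ⟨α, a1, a2⟩ := few_of n1 (nxy.mono gB fun _ _ => subset_rfl) hx hy
  obtain ⟨β, b1, b2⟩ := few_of n2 (nxz.mono gB fun _ _ => subset_rfl) hx (g4 b hb)
  obtain ⟨γ, e1, e2⟩ := few_of n3 (nyz.mono gB fun _ _ => subset_rfl) hy (g4 b hb)
  exact ⟨min α (min β γ), lt_min a1 (lt_min b1 e1), a2.mono (min_le_left _ _),
    b2.mono ((min_le_right _ _).trans (min_le_left _ _)),
    e2.mono ((min_le_right _ _).trans (min_le_right _ _))⟩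

end Pool.Agent.MP_b60a07_lc.FG
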