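import Mathlib

/-! Fremlin's statement and the pair form of Gruenhage's statement. -/

namespace Pool.Agent.MP_b60a07_lc.FG

open Set Topology TopologicalSpace

universe u

/-- Statement (F): every perfectly normal compact Hausdorff space has a continuous at most two to
one surjection onto a compact metrizable space. -/
def Fremlin : Prop :=
  ∀ (K : Type u) [TopologicalSpace K] [CompactSpace K] [T2Space K] [PerfectlyNormalSpace K],
    ∃ (M : Type u) (_ : TopologicalSpace M), CompactSpace M ∧ MetrizableSpace M ∧
      ∃ f : K → M, Continuous f ∧ Function.Surjective f ∧ ∀ y, (f ⁻¹' {y}).encard ≤ 2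

/-- `e` is a homeomorphism from `A × {0,1}`, with the order topology of the lexicographic order,
onto a subspace of `K`. -/
def LexCopy {K : Type u} [TopologicalSpace K] (A : Set unitInterval) (e : A ×ₗ Bool → K) : Prop :=
  @IsEmbedding _ _ (Preorder.topology (A ×ₗ Bool)) _ e

/-- Statement (H): in a perfectly normal compact Hausdorff space, if no continuous map to a
metrizable space separates all pairs of a set `P` of pairs of distinct points, then uncountably
many pairs of `P` are the pairs of twins of a copy of some `A × {0,1}`. -/
def PairCopies : Prop :=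
  ∀ (K : Type u) [TopologicalSpace K] [CompactSpace K] [T2Space K] [PerfectlyNormalSpace K]
    (P : Set (K × K)), (∀ s ∈ P, s.1 ≠ s.2) →
    (∀ (M : Type u) [TopologicalSpace M] [MetrizableSpace M] (g : K → M), Continuous g →
      ∃ s ∈ P, g s.1 = g s.2) →
    ∃ A : Set unitInterval, ¬ A.Countable ∧ ∃ e : A ×ₗ Bool → K, LexCopy A e ∧
      ∀ a : A, (e (toLex (a, false)), e (toLex (a, true))) ∈ P ∨
        (e (toLex (a, true)), e (toLex (a, false))) ∈ P

end Pool.Agent.MP_b60a07_lc.FG
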