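import Pool.Agent.MP_b60a07_lc.FG.BtoF

/-! Statement (H) implies (B). -/

namespace Pool.Agent.MP_b60a07_lc.FG

open Set Topology TopologicalSpace Filter

universe u

/-- The identity or the reflection. -/
def sgn : Bool → unitInterval → ℝ
  | false, t => -t
  | true, t => t

theorem sgn_inj (j : Bool) : Function.Injective (sgn j) := by
  intro a b e
  cases j
  · exact Subtype.ext (neg_injective e)
  · exact Subtype.ext e

theorem open_of {α : Type*} (t : TopologicalSpace α) {s : Set α}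
    (h : ∀ x ∈ s, ∃ v ⊆ s, IsOpen[t] v ∧ x ∈ v) : IsOpen[t] s := isOpen_iff_forall_mem_open.2 h

theorem lex_lt {A : Set unitInterval} {a b : A} {i j : Bool} :
    (toLex (a, i) : A ×ₗ Bool) < toLex (b, j) ↔ (a.1 : ℝ) < b.1 ∨ ((a.1 : ℝ) = b.1 ∧ i < j) := by
  rw [Prod.Lex.toLex_lt_toLex]
  exact or_congr Iff.rfl (and_congr_left fun _ =>
    ⟨fun h => congrArg (fun x : A => (x.1 : ℝ)) h, fun h => Subtype.ext (Subtype.ext h)⟩)

theorem half (A : Set unitInterval) (j : Bool) (S : Set A)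
    (hS : ∀ a ∈ S, ∀ V ∈ 𝓝 a.1, ∃ w ∈ A, w ∈ V ∧ side j w a.1) :
    induced (fun a : S => (toLex (a.1, j) : A ×ₗ Bool)) (Preorder.topology _) =
      induced (fun a : S => sgn j a.1.1) sorgenfrey := by
  refine le_antisymm (@le_induced_generateFrom _ _ (_) _ _ ?_)
    (@le_induced_generateFrom _ _ (_) _ _ ?_)
  · rintro _ ⟨c, d, rfl⟩
    let _ : TopologicalSpace (A ×ₗ Bool) := Preorder.topology _
    have : OrderTopology (A ×ₗ Bool) := ⟨rfl⟩
    refine open_of _ fun a ha => ?_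
    cases j
    · have e4 : c ≤ -(a.1.1 : ℝ) := ha.1
      have e5 : -(a.1.1 : ℝ) < d := ha.2
      have h1 : {t : unitInterval | -d < t} ∈ 𝓝 a.1.1 :=
        (isOpen_lt continuous_const continuous_subtype_val).mem_nhds (neg_lt.1 e5)
      obtain ⟨w, w1, w2, w3⟩ := hS a.1 a.2 _ h1
      refine ⟨_, ?_, isOpen_induced (isOpen_Ioo (a := toLex (⟨w, w1⟩, true))
        (b := toLex (a.1, true))), lex_lt.2 (Or.inl (show (w : ℝ) < a.1.1 from w3)),
        lex_lt.2 (Or.inr ⟨rfl, by decide⟩)⟩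
      intro x hx
      have e1 : (w : ℝ) < x.1.1 := (lex_lt.1 hx.1).resolve_right fun h => absurd h.2 (by decide)
      have e2 : (x.1.1 : ℝ) ≤ a.1.1 := (lex_lt.1 hx.2).elim le_of_lt fun h => h.1.le
      have e3 : -d < w := w2
      exact ⟨show c ≤ -(x.1.1 : ℝ) by linarith, show -(x.1.1 : ℝ) < d by linarith⟩
    · have e4 : c ≤ (a.1.1 : ℝ) := ha.1
      have h1 : {t : unitInterval | (t : ℝ) < d} ∈ 𝓝 a.1.1 :=
        (isOpen_lt continuous_subtype_val continuous_const).mem_nhds ha.2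
      obtain ⟨w, w1, w2, w3⟩ := hS a.1 a.2 _ h1
      refine ⟨_, ?_, isOpen_induced (isOpen_Ioo (a := toLex (a.1, false))
        (b := toLex (⟨w, w1⟩, false))), lex_lt.2 (Or.inr ⟨rfl, by decide⟩), lex_lt.2 (Or.inl w3)⟩
      intro x hx
      have e1 : (x.1.1 : ℝ) < w := (lex_lt.1 hx.2).resolve_right fun h => absurd h.2 (by decide)
      have e2 : (a.1.1 : ℝ) ≤ x.1.1 := (lex_lt.1 hx.1).elim le_of_lt fun h => h.1.le
      have e3 : (w : ℝ) < d := w2
      exact ⟨show c ≤ (x.1.1 : ℝ) by linarith, show (x.1.1 : ℝ) < d by linarith⟩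
  · let _ := sorgenfrey
    have key : ∀ T : Set S, (∀ a ∈ T, ∃ d, sgn j a.1.1 < d ∧
        ∀ x : S, sgn j x.1.1 ∈ Ico (sgn j a.1.1) d → x ∈ T) →
        IsOpen[induced (fun a : S => sgn j a.1.1) sorgenfrey] T := by
      intro T hT
      refine open_of _ fun a ha => ?_
      obtain ⟨d, d1, d2⟩ := hT a ha
      have h0 : IsOpen (Ico (sgn j a.1.1) d) := GenerateOpen.basic _ ⟨_, d, rfl⟩
      exact ⟨_, d2, isOpen_induced h0, le_rfl, d1⟩
    rintro _ ⟨c, h⟩
    obtain ⟨⟨c, i⟩, rfl⟩ := toLex.surjective c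
    rcases h with rfl | rfl
    · refine key _ fun a ha => ?_
      have h1 := lex_lt.1 ha
      cases j
      · have e1 := h1.resolve_right fun h => absurd h.2 (by simp)
        exact ⟨-(c.1 : ℝ), neg_lt_neg e1, fun x hx => lex_lt.2 (Or.inl (neg_lt_neg_iff.1 hx.2))⟩
      · refine ⟨_, lt_add_one _, fun x hx => lex_lt.2 ?_⟩
        have e2 : (a.1.1 : ℝ) ≤ x.1.1 := hx.1
        rcases h1 with h | h
        · exact Or.inl (h.trans_le e2)
        · exact (h.1.trans_le e2).lt_or_eq.imp_right fun e => ⟨e, h.2⟩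
    · refine key _ fun a ha => ?_
      have h1 := lex_lt.1 ha
      cases j
      · refine ⟨_, lt_add_one _, fun x hx => lex_lt.2 ?_⟩
        have e2 : (x.1.1 : ℝ) ≤ a.1.1 := neg_le_neg_iff.1 hx.1
        rcases h1 with h | h
        · exact Or.inl (e2.trans_lt h)
        · exact (e2.trans h.1.le).lt_or_eq.imp_right fun e => ⟨e, h.2⟩
      · have e1 := h1.resolve_right fun h => absurd h.2 (by simp)
        exact ⟨(c.1 : ℝ), e1, fun x hx => lex_lt.2 (Or.inl hx.2)⟩

theorem basis_of_copies (hH : PairCopies.{u}) : Basis.{u} := by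
  intro K _ _ _ _ X hX
  by_cases h : ∀ (M : Type u) [TopologicalSpace M] [MetrizableSpace M] (g : K → M),
      Continuous g → ∃ s ∈ {s : K × K | s.1 ∈ X ∧ s.1 ≠ s.2}, g s.1 = g s.2
  · obtain ⟨A, a1, e, a2, a3⟩ := hH K _ (fun s hs => hs.2) h
    obtain ⟨j, hj⟩ : ∃ j, ¬ {a : A | e (toLex (a, j)) ∈ X}.Countable := by
      by_contra hn
      push Not at hn
      refine a1 (countable_coe_iff.1 (countable_univ_iff.1 (((hn false).union (hn true)).mono ?_)))
      exact fun a _ => (a3 a).imp (fun h => h.1) fun h => h.1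
    have h2 := uncountable_diff hj ((two A j).preimage Subtype.val_injective)
    generalize hS : {a : A | e (toLex (a, j)) ∈ X} \ Subtype.val ⁻¹'
      {b ∈ A | ∃ V ∈ 𝓝 b, {w ∈ A | w ∈ V ∧ side j w b}.Countable} = S at h2
    have h3 : ∀ a ∈ S, e (toLex (a, j)) ∈ X ∧ ∀ V ∈ 𝓝 a.1, ∃ w ∈ A, w ∈ V ∧ side j w a.1 := by
      intro a ha
      rw [← hS] at ha
      exact ⟨ha.1, fun V hV => ne_of_uncountable fun hc => ha.2 ⟨a.2, V, hV, hc⟩⟩
    have h4 := half A j S fun a ha => (h3 a ha).2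
    let _ : TopologicalSpace (A ×ₗ Bool) := Preorder.topology _
    let _ := sorgenfrey
    let _ : TopologicalSpace S := induced (fun a : S => sgn j a.1.1) sorgenfrey
    have k1 : IsEmbedding fun a : S => sgn j a.1.1 :=
      ⟨⟨rfl⟩, fun a b h => Subtype.ext (Subtype.ext (sgn_inj j h))⟩
    have k2 : IsEmbedding fun a : S => (toLex (a.1, j) : A ×ₗ Bool) :=
      ⟨⟨h4.symm⟩, fun a b h => Subtype.ext (congrArg (fun x => (ofLex x).1) h)⟩
    have k3 := IsEmbedding.comp a2 k2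
    refine ⟨_, range_subset_iff.2 fun a : S => (h3 a.1 a.2).1, fun hc => h2 ?_,
      Or.inr ⟨_, k1.comp k3.toHomeomorph.symm.isEmbedding⟩⟩
    refine countable_coe_iff.1 (countable_univ_iff.1 ((hc.preimage k3.injective).mono ?_))
    intro a _
    exact ⟨a, rfl⟩
  · push Not at h
    obtain ⟨M, _, _, g, g1, g2⟩ := h
    refine ⟨X, subset_rfl, hX, Or.inl (IsEmbedding.metrizableSpace (f := fun x : X => g x)
      ⟨isInducing_iff_nhds.2 fun x => le_antisymm
        (g1.comp continuous_subtype_val).continuousAt.le_comap fun s hs => ?_, fun x y e => ?_⟩)⟩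
    · obtain ⟨U, u1, u2, u3⟩ := mem_nhds_iff.1 hs
      obtain ⟨V, v1, rfl⟩ := isOpen_induced_iff.1 u2
      refine mem_comap.2 ⟨(g '' Vᶜ)ᶜ, (g1.isClosedMap _ v1.isClosed_compl).isOpen_compl.mem_nhds ?_,
        fun y hy => u1 (by_contra fun hn => hy ⟨y, hn, rfl⟩)⟩
      rintro ⟨y, y1, y2⟩
      exact g2 (x, y) ⟨x.2, fun e => y1 ((show x.1 = y from e) ▸ u3)⟩ y2.symm
    · by_contra hn
      exact g2 (x, y) ⟨x.2, fun e' => hn (Subtype.ext e')⟩ e

end Pool.Agent.MP_b60a07_lc.FG
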