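import Pool.Agent.MP_b60a07_lc.FG.Spec

/-! Uncountable subfamilies and condensation points. -/

namespace Pool.Agent.MP_b60a07_lc.FG

open Set Topology TopologicalSpace Filter

universe u v

theorem rs : RS.{u} := by
  intro X S O hO hT
  obtain ⟨_, wf⟩ := exists_wellFoundedLT (α := X)
  let P : X → Prop := wf.wf.fix (C := fun _ => Prop)
    fun x ih => x ∈ S ∧ ∀ y (h : y < x), ih y h → x ∉ O y
  have hP : ∀ x, P x ↔ x ∈ S ∧ ∀ y, y < x → P y → x ∉ O y := fun x => by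
    have e : P x = (x ∈ S ∧ ∀ y, y < x → P y → x ∉ O y) := wf.wf.fix_eq _ x
    rw [e]
  have h0 : ¬ {x | P x}.Countable := fun hc => by
    obtain ⟨x, hx, h⟩ := hT _ (fun y hy => ((hP y).1 hy).1) hc
    exact h x ((hP x).2 ⟨hx, fun y _ hy => h y hy⟩) (hO x hx)
  refine ⟨{y | P y ∧ ({x | P x} ∩ Iio y).Countable}, fun y hy => ((hP y).1 hy.1).1, fun hc => ?_,
    fun y hy => ?_⟩
  · have hne : {z | P z ∧ ¬ ({x | P x} ∩ Iio z).Countable}.Nonempty := by
      by_contra hn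
      refine h0 (hc.mono fun z hz => And.intro hz ?_)
      by_contra h
      exact hn ⟨z, hz, h⟩
    obtain ⟨z, hz, hm⟩ := wf.wf.has_min _ hne
    refine hz.2 (hc.mono fun w hw => And.intro hw.1 ?_)
    by_contra h
    exact hm w ⟨hw.1, h⟩ hw.2
  · refine (hy.2.insert y).mono fun w hw => ?_
    rcases lt_trichotomy w y with h | h | h
    · exact Or.inr ⟨hw.1.1, h⟩
    · exact Or.inl h
    · exact absurd hw.2 (((hP w).1 hw.1.1).2 y h hy.1)

theorem cond : Cond.{u, v} := by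
  intro X _ _ ι x B
  obtain ⟨t, ht, e⟩ := eq_open_union_countable
    (fun U : {U : Set X // IsOpen U ∧ {w ∈ B | x w ∈ U}.Countable} => U.1) fun U => U.2.1
  refine (ht.biUnion fun U _ => U.2.2).mono ?_
  rintro b ⟨hb, U, hU, hc⟩
  have h1 : x b ∈ ⋃ U : {U : Set X // IsOpen U ∧ {w ∈ B | x w ∈ U}.Countable}, U.1 :=
    mem_iUnion.2 ⟨⟨interior U, isOpen_interior,
      hc.mono fun w hw => And.intro hw.1 (interior_subset hw.2)⟩,
      mem_interior_iff_mem_nhds.2 hU⟩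
  rw [← e] at h1
  obtain ⟨V, hV, h2⟩ := mem_iUnion₂.1 h1
  exact mem_iUnion₂.2 ⟨V, hV, hb, h2⟩

theorem two : Two := by
  intro B ε
  have hC := cond.{0, 0} unitInterval unitInterval id B
  set C := {b ∈ B | ∃ U ∈ 𝓝 (id b), {w ∈ B | id w ∈ U}.Countable} with hC'
  have h1 : {b ∈ B \ C | 𝓝[(B \ C) ∩ {w | side ε w b}] b = ⊥}.Countable := by
    cases ε
    · exact countable_setOfPred_isolated_left_within
    · exact countable_setOfPred_isolated_right_within
  refine (hC.union h1).mono ?_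
  rintro b ⟨hb, V, hV, hc⟩
  by_cases h : b ∈ C
  · exact Or.inl h
  refine Or.inr ⟨⟨hb, h⟩, ?_⟩
  rw [← empty_mem_iff_bot, mem_nhdsWithin_iff_exists_mem_nhds_inter]
  refine ⟨interior V, interior_mem_nhds.2 hV, ?_⟩
  rintro w ⟨h2, h3, h4⟩
  exact h3.2 ⟨h3.1, interior V ∩ {w | side ε w b},
    (isOpen_interior.inter (isOpen_side ε b)).mem_nhds ⟨h2, h4⟩,
    hc.mono fun z hz => And.intro hz.1 (And.intro (interior_subset hz.2.1) hz.2.2)⟩

end Pool.Agent.MP_b60a07_lc.FG
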