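import Pool.Agent.MP_b60a07_lc.FG.Defs

/-! The steps of the proof that (F) and (H) are equivalent. -/

namespace Pool.Agent.MP_b60a07_lc.FG

open Set Topology TopologicalSpace Filter

universe u v

/-- An uncountable subfamily with countable traces. -/
def RS : Prop :=
  ∀ (X : Type u) (S : Set X) (O : X → Set X), (∀ x ∈ S, x ∈ O x) →
    (∀ T ⊆ S, T.Countable → ∃ x ∈ S, ∀ t ∈ T, x ∉ O t) →
    ∃ Y ⊆ S, ¬ Y.Countable ∧ ∀ y ∈ Y, (Y ∩ O y).Countable

/-- All but countably many members of a family in a hereditarily Lindelöf space are condensation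
points of the family. -/
def Cond : Prop :=
  ∀ (X : Type u) [TopologicalSpace X] [HereditarilyLindelofSpace X] (ι : Type v) (x : ι → X)
    (B : Set ι), {b ∈ B | ∃ U ∈ 𝓝 (x b), {w ∈ B | x w ∈ U}.Countable}.Countable

/-- `w` is to the left (`false`) or to the right (`true`) of `b`. -/
def side : Bool → unitInterval → unitInterval → Prop
  | false, w, b => w < b
  | true, w, b => b < w

/-- One sided condensation points. -/
def Two : Prop :=
  ∀ (B : Set unitInterval) (ε : Bool),
    {b ∈ B | ∃ V ∈ 𝓝 b, {w ∈ B | w ∈ V ∧ side ε w b}.Countable}.Countable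

/-- Perfectly normal and hereditarily Lindelöf agree for compact Hausdorff spaces, and the
second property passes to images and to products with second countable spaces. -/
def HLs : Prop :=
  (∀ (K : Type u) [TopologicalSpace K] [CompactSpace K] [PerfectlyNormalSpace K],
    HereditarilyLindelofSpace K) ∧
  (∀ (K : Type u) [TopologicalSpace K] [CompactSpace K] [T2Space K] [HereditarilyLindelofSpace K],
    PerfectlyNormalSpace K) ∧
  (∀ (K : Type u) [TopologicalSpace K] [HereditarilyLindelofSpace K],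
    HereditarilyLindelofSpace (K × unitInterval)) ∧
  (∀ (K L : Type u) [TopologicalSpace K] [TopologicalSpace L] [HereditarilyLindelofSpace K]
    (f : K → L), Continuous f → Function.Surjective f → HereditarilyLindelofSpace L)

/-- Two disjoint closed sets both meet only countably many of the sets `D w`, `w ∈ B`. -/
def NS {X : Type u} [TopologicalSpace X] {ι : Type*} (B : Set ι) (D : ι → Set X) : Prop :=
  ∀ F G : Set X, IsClosed F → IsClosed G → Disjoint F G →
    {w ∈ B | (D w ∩ F).Nonempty ∧ (D w ∩ G).Nonempty}.Countable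

/-- Then a continuous map to a metrizable space is constant on all but countably many `D w`. -/
def NSM : Prop :=
  ∀ (X : Type u) [TopologicalSpace X] [CompactSpace X] (ι : Type v) (B : Set ι) (D : ι → Set X),
    NS B D → ∀ (M : Type u) [TopologicalSpace M] [MetrizableSpace M] (g : X → M), Continuous g →
      {w ∈ B | ∃ y ∈ D w, ∃ z ∈ D w, g y ≠ g z}.Countable

/-- The pairs `pt false b`, `pt true b`, `b ∈ B`, are the fibres over `B` of a closed relation. -/
structure Frame {K : Type u} [TopologicalSpace K] (B : Set unitInterval)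
    (pt : Bool → unitInterval → K) : Prop where
  ne : ∀ b ∈ B, pt false b ≠ pt true b
  rel : ∃ R : Set (K × unitInterval), IsClosed R ∧
    ∀ b ∈ B, ∀ y, (y, b) ∈ R ↔ y = pt false b ∨ y = pt true b
  ns : NS B fun b => {pt false b, pt true b}

/-- From a two to one map to a frame. -/
def Setup : Prop :=
  ∀ (K : Type u) [TopologicalSpace K] [CompactSpace K] [T2Space K]
    (M : Type u) [TopologicalSpace M] [CompactSpace M] [MetrizableSpace M] (f : K → M),
    Continuous f → (∀ y, (f ⁻¹' {y}).encard ≤ 2) →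
    ∀ P : Set (K × K), (∀ s ∈ P, s.1 ≠ s.2) →
    (∀ (N : Type u) [TopologicalSpace N] [MetrizableSpace N] (g : K → N), Continuous g →
      ∃ s ∈ P, g s.1 = g s.2) →
    ∃ (B : Set unitInterval) (pt : Bool → unitInterval → K), ¬ B.Countable ∧ Frame B pt ∧
      ∀ b ∈ B, (pt false b, pt true b) ∈ P

/-- The points `pt false w`, `w ∈ B` on the side `t.2` of `b`, condense at `pt t.1 b`. -/
def Fat {K : Type u} [TopologicalSpace K] (pt : Bool → unitInterval → K) (B : Set unitInterval)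
    (b : unitInterval) (t : Bool × Bool) : Prop :=
  ∀ U ∈ 𝓝 (pt t.1 b), ∀ V ∈ 𝓝 b, ¬ {w ∈ B | w ∈ V ∧ side t.2 w b ∧ pt false w ∈ U}.Countable

/-- The use of (F). -/
def Thin : Prop :=
  Fremlin.{u} → ∀ (K : Type u) [TopologicalSpace K] [CompactSpace K] [T2Space K]
    [HereditarilyLindelofSpace K] (B : Set unitInterval) (pt : Bool → unitInterval → K),
    Frame B pt →
    {b ∈ B | 2 < {t | Fat pt B b t}.encard}.Countable ∨
      ∃ C ⊆ B, ¬ C.Countable ∧ ∃ t, ∀ b ∈ C, Fat pt B b t ∧ ¬ Fat pt C b t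

/-- From at most two condensation types to a uniform pattern. -/
def Pat : Prop :=
  ∀ (K : Type u) [TopologicalSpace K] [CompactSpace K] [T2Space K]
    [HereditarilyLindelofSpace K] (B : Set unitInterval) (pt : Bool → unitInterval → K),
    ¬ B.Countable → Frame B pt → (∀ b ∈ B, {t | Fat pt B b t}.encard ≤ 2) →
    ∃ C ⊆ B, ¬ C.Countable ∧ ∃ i : Bool, ∀ b ∈ C, ∀ ε, ¬ Fat pt C b (xor i (!ε), ε)

/-- Removing the countable sets of exceptions. -/
def Nest : Prop :=
  ∀ (K : Type u) [TopologicalSpace K] [CompactSpace K] [T2Space K]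
    (B : Set unitInterval) (pt : Bool → unitInterval → K) (i : Bool),
    ¬ B.Countable → Frame B pt → (∀ b ∈ B, ∀ ε, ¬ Fat pt B b (xor i (!ε), ε)) →
    ∃ A ⊆ B, ¬ A.Countable ∧ (∀ a ∈ A, ∀ ε, ∀ V ∈ 𝓝 a, ∃ w ∈ A, w ∈ V ∧ side ε w a) ∧
      ∃ W : Bool → unitInterval → Set K, ∀ a ∈ A, (∀ ε, IsOpen (W ε a) ∧ pt (xor i ε) a ∈ W ε a) ∧
        Disjoint (W false a) (W true a) ∧ ∀ w ∈ A, ∀ ε j, side ε w a → pt j w ∈ W ε a

/-- The copy of `A × {0,1}`. -/
def Emb : Prop :=
  ∀ (K : Type u) [TopologicalSpace K] [CompactSpace K] [T2Space K]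
    (A : Set unitInterval) (pt : Bool → unitInterval → K) (i : Bool)
    (W : Bool → unitInterval → Set K), Frame A pt →
    (∀ a ∈ A, ∀ ε, ∀ V ∈ 𝓝 a, ∃ w ∈ A, w ∈ V ∧ side ε w a) →
    (∀ a ∈ A, (∀ ε, IsOpen (W ε a) ∧ pt (xor i ε) a ∈ W ε a) ∧
        Disjoint (W false a) (W true a) ∧ ∀ w ∈ A, ∀ ε j, side ε w a → pt j w ∈ W ε a) →
    LexCopy A fun x => pt (xor i (ofLex x).2) (ofLex x).1

/-- The use of (H) for one family of pairs. -/
def Step : Prop :=
  PairCopies.{u} → ∀ (K : Type u) [TopologicalSpace K] [CompactSpace K] [T2Space K]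
    [PerfectlyNormalSpace K] (ι : Type u) (B : Set ι) (p q : ι → K), ¬ B.Countable →
    (∀ b ∈ B, p b ≠ q b) → NS B (fun b => {p b, q b}) →
    ∃ C ⊆ B, ¬ C.Countable ∧ ∃ r : ι → unitInterval, ∀ b ∈ C, ∀ U : Set K, IsOpen U → p b ∈ U →
      q b ∈ U → ∃ V ∈ 𝓝 (r b), ∀ w ∈ C, r w ∈ V → p w ∈ U

/-- If (F) fails there is a perfectly normal compactum with an unsplit family of triples. -/
def Tri : Prop :=
  ¬ Fremlin.{u} → ∃ (K : Type u) (_ : TopologicalSpace K) (_ : CompactSpace K) (_ : T2Space K)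
    (_ : PerfectlyNormalSpace K) (ι : Type u) (B : Set ι) (x y z : ι → K), ¬ B.Countable ∧
    (∀ b ∈ B, x b ≠ y b ∧ x b ≠ z b ∧ y b ≠ z b) ∧ NS B fun b => {x b, y b, z b}

theorem NS.mono {X : Type u} [TopologicalSpace X] {ι : Type*} {B C : Set ι} {D E : ι → Set X}
    (h : NS B D) (hC : C ⊆ B) (hE : ∀ w ∈ C, E w ⊆ D w) : NS C E := by
  intro F G hF hG hd
  refine (h F G hF hG hd).mono ?_
  intro w hw
  exact ⟨hC hw.1, hw.2.1.mono (inter_subset_inter_left _ (hE w hw.1)),
    hw.2.2.mono (inter_subset_inter_left _ (hE w hw.1))⟩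

theorem Frame.mono {K : Type u} [TopologicalSpace K] {B C : Set unitInterval}
    {pt : Bool → unitInterval → K} (h : Frame B pt) (hC : C ⊆ B) : Frame C pt where
  ne b hb := h.ne b (hC hb)
  rel := by
    obtain ⟨R, h1, h2⟩ := h.rel
    exact ⟨R, h1, fun b hb => h2 b (hC hb)⟩
  ns := h.ns.mono hC fun _ _ => subset_rfl

theorem Fat.mono {K : Type u} [TopologicalSpace K] {pt : Bool → unitInterval → K}
    {B C : Set unitInterval} {b : unitInterval} {t : Bool × Bool} (h : Fat pt C b t)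
    (hC : C ⊆ B) : Fat pt B b t := by
  intro U hU V hV hc
  refine h U hU V hV (hc.mono ?_)
  intro w hw
  exact ⟨hC hw.1, hw.2⟩

theorem isOpen_side (ε : Bool) (b : unitInterval) : IsOpen {w | side ε w b} := by
  cases ε
  · exact isOpen_Iio
  · exact isOpen_Ioi

/-- The tube lemma for a frame. -/
theorem Frame.tube {K : Type u} [TopologicalSpace K] [CompactSpace K] {B : Set unitInterval}
    {pt : Bool → unitInterval → K} (h : Frame B pt) {b : unitInterval} (hb : b ∈ B) {U : Set K}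
    (hU : IsOpen U) (h0 : ∀ j, pt j b ∈ U) : ∃ V ∈ 𝓝 b, ∀ w ∈ B, w ∈ V → ∀ j, pt j w ∈ U := by
  obtain ⟨R, h1, h2⟩ := h.rel
  have hc : IsClosed (Prod.snd '' (R ∩ Prod.fst ⁻¹' Uᶜ)) :=
    isClosedMap_snd_of_compactSpace _ (h1.inter (hU.isClosed_compl.preimage continuous_fst))
  refine ⟨_, hc.isOpen_compl.mem_nhds ?_, fun w hw hV j => ?_⟩
  · rintro ⟨⟨y, c⟩, ⟨h3, h4⟩, h5⟩
    obtain rfl : c = b := h5
    rcases (h2 _ hb y).1 h3 with rfl | rfl
    · exact h4 (h0 false)
    · exact h4 (h0 true)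
  · by_contra hn
    refine hV ⟨(pt j w, w), ⟨(h2 w hw _).2 ?_, hn⟩, rfl⟩
    cases j
    · exact Or.inl rfl
    · exact Or.inr rfl

end Pool.Agent.MP_b60a07_lc.FG
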